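import Pool.Agent.N252.TV.M

/-!
Project EV (helper32): pointwise identities for `w = U² + K |∇U|²`, where `K ΔU = -U`.
-/

set_option autoImplicit false
open MeasureTheory Filter Topology Complex
open scoped ContDiff ENNReal

namespace Pool.Agent.Helper32.EV

open Pool.Agent.W745.RW Pool.Agent.TH421.AC Pool.Agent.N252.TV

noncomputable section

variable {B : Set ℂ} {K U : ℂ → ℝ}

/-- a solution of `K ΔU = - U` -/
structure So (B : Set ℂ) (K U : ℂ → ℝ) : Prop where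
  op : IsOpen B
  sK : ContDiffOn ℝ ∞ K B
  sm : ContDiffOn ℝ ∞ U B
  eq : ∀ z ∈ B, K z * (dX (dX U) z + dY (dY U) z) = - U z

/-- `K |∇U|²` -/
def gs (K U : ℂ → ℝ) (z : ℂ) : ℝ := K z * PP U z

/-- `U² + K |∇U|²` -/
def gw (K U : ℂ → ℝ) (z : ℂ) : ℝ := U z ^ 2 + K z * PP U z

lemma So.sX (H : So B K U) : ContDiffOn ℝ ∞ (dX U) B := rsd H.op H.sm 1
lemma So.sY (H : So B K U) : ContDiffOn ℝ ∞ (dY U) B := rsd H.op H.sm I
lemma So.sXX (H : So B K U) : ContDiffOn ℝ ∞ (dX (dX U)) B := rsd H.op H.sX 1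
lemma So.sXY (H : So B K U) : ContDiffOn ℝ ∞ (dY (dX U)) B := rsd H.op H.sX I
lemma So.sYY (H : So B K U) : ContDiffOn ℝ ∞ (dY (dY U)) B := rsd H.op H.sY I
lemma So.sKX (H : So B K U) : ContDiffOn ℝ ∞ (dX K) B := rsd H.op H.sK 1
lemma So.sKY (H : So B K U) : ContDiffOn ℝ ∞ (dY K) B := rsd H.op H.sK I
lemma So.sPP (H : So B K U) : ContDiffOn ℝ ∞ (PP U) B := (H.sX.pow 2).add (H.sY.pow 2)
lemma So.sgs (H : So B K U) : ContDiffOn ℝ ∞ (gs K U) B := H.sK.mul H.sPP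
lemma So.sgw (H : So B K U) : ContDiffOn ℝ ∞ (gw K U) B := (H.sm.pow 2).add (H.sK.mul H.sPP)
lemma So.swX (H : So B K U) : ContDiffOn ℝ ∞ (dX (gw K U)) B := rsd H.op H.sgw 1
lemma So.swY (H : So B K U) : ContDiffOn ℝ ∞ (dY (gw K U)) B := rsd H.op H.sgw I

/-- `∇Δ U` -/
lemma So.third (H : So B K U) {z : ℂ} (hz : z ∈ B) :
    (K z * (dX (dX (dX U)) z + dY (dY (dX U)) z) =
      - dX U z - dX K z * (dX (dX U) z + dY (dY U) z)) ∧
    (K z * (dX (dY (dX U)) z + dY (dY (dY U)) z) =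
      - dY U z - dY K z * (dX (dX U) z + dY (dY U) z)) := by
  have hev : (fun w => K w * (dX (dX U) w + dY (dY U) w)) =ᶠ[𝓝 z] fun w => - U w := by
    filter_upwards [H.op.mem_nhds hz] with w hw
    exact H.eq w hw
  have dU := rdA H.op H.sm hz
  have dK := rdA H.op H.sK hz
  have d1 := rdA H.op H.sXX hz
  have d2 := rdA H.op H.sYY hz
  have g : ∀ v, fderiv ℝ K z v * (dX (dX U) z + dY (dY U) z) +
      K z * (fderiv ℝ (dX (dX U)) z v + fderiv ℝ (dY (dY U)) z v) = - fderiv ℝ U z v := by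
    intro v
    have e1 := congrArg (fun T : ℂ →L[ℝ] ℝ => T v) hev.fderiv_eq
    have e2 : fderiv ℝ (fun w => K w * (dX (dX U) w + dY (dY U) w)) z v =
        fderiv ℝ K z v * (dX (dX U) z + dY (dY U) z) +
        K z * (fderiv ℝ (dX (dX U)) z v + fderiv ℝ (dY (dY U)) z v) := by
      have d3 : DifferentiableAt ℝ (fun w => dX (dX U) w + dY (dY U) w) z := d1.add d2
      rw [fderiv_fun_mul dK d3, fderiv_fun_add d1 d2]
      simp only [add_apply, smul_apply, smul_eq_mul]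
      ring
    have e3 : fderiv ℝ (fun w => - U w) z v = - fderiv ℝ U z v := by
      rw [fderiv_fun_neg]; rfl
    rw [← e2, ← e3]
    exact e1
  -- symmetry
  have hXY : (dY (dX U)) =ᶠ[𝓝 z] dX (dY U) := by
    filter_upwards [H.op.mem_nhds hz] with w hw
    exact symm2 H.op H.sm hw 1 I
  have s1 : dY (dY (dX U)) z = dX (dY (dY U)) z := by
    have e1 : dY (dY (dX U)) z = dY (dX (dY U)) z := by
      show fderiv ℝ (dY (dX U)) z I = fderiv ℝ (dX (dY U)) z I
      rw [hXY.fderiv_eq]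
    rw [e1]
    exact symm2 H.op H.sY hz 1 I
  have s2 : dX (dY (dX U)) z = dY (dX (dX U)) z := symm2 H.op H.sX hz I 1
  refine ⟨?_, ?_⟩
  · rw [s1]
    have := g 1
    have e : ∀ F : ℂ → ℝ, fderiv ℝ F z 1 = dX F z := fun _ => rfl
    simp only [e] at this
    linarith
  · rw [s2]
    have := g I
    have e : ∀ F : ℂ → ℝ, fderiv ℝ F z I = dY F z := fun _ => rfl
    simp only [e] at this
    linarith

/-- the derivatives of `w` -/
lemma So.dw (H : So B K U) {z : ℂ} (hz : z ∈ B) (v : ℂ) :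
    fderiv ℝ (gw K U) z v = 2 * (U z * fderiv ℝ U z v) + (fderiv ℝ K z v * PP U z +
      K z * (2 * (dX U z * fderiv ℝ (dX U) z v + dY U z * fderiv ℝ (dY U) z v))) := by
  apply fd_line (rdA H.op H.sgw hz)
  have a0 := lineD (rdA H.op H.sm hz) v
  have a1 := lineD (rdA H.op H.sX hz) v
  have a2 := lineD (rdA H.op H.sY hz) v
  have a3 := lineD (rdA H.op H.sK hz) v
  refine ((a0.pow 2).add (a3.mul ((a1.pow 2).add (a2.pow 2)))).congr_deriv ?_
  simp only [Pi.add_apply, Pi.pow_apply, zero_smul, add_zero, PP]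
  push_cast
  ring

lemma So.wX (H : So B K U) {z : ℂ} (hz : z ∈ B) :
    dX (gw K U) z = 2 * (U z * dX U z) + (dX K z * PP U z +
      K z * (2 * (dX U z * dX (dX U) z + dY U z * dY (dX U) z))) := by
  have s1 : dX (dY U) z = dY (dX U) z := (symm2 H.op H.sm hz 1 I).symm
  rw [← s1]
  exact H.dw hz 1

lemma So.wY (H : So B K U) {z : ℂ} (hz : z ∈ B) :
    dY (gw K U) z = 2 * (U z * dY U z) + (dY K z * PP U z +
      K z * (2 * (dX U z * dY (dX U) z + dY U z * dY (dY U) z))) := H.dw hz I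

lemma So.wXX (H : So B K U) {z : ℂ} (hz : z ∈ B) :
    dX (dX (gw K U)) z = 2 * (dX U z ^ 2 + U z * dX (dX U) z) + (dX (dX K) z * PP U z +
      4 * dX K z * (dX U z * dX (dX U) z + dY U z * dY (dX U) z) +
      2 * K z * (dX (dX U) z ^ 2 + dX U z * dX (dX (dX U)) z + dY (dX U) z ^ 2 +
        dY U z * dX (dY (dX U)) z)) := by
  have hev : dX (gw K U) =ᶠ[𝓝 z] fun w => 2 * (U w * dX U w) + (dX K w * (dX U w ^ 2 + dY U w ^ 2) +
      K w * (2 * (dX U w * dX (dX U) w + dY U w * dY (dX U) w))) := by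
    filter_upwards [H.op.mem_nhds hz] with w hw
    exact H.wX hw
  have e1 : dX (dX (gw K U)) z = fderiv ℝ (fun w => 2 * (U w * dX U w) +
      (dX K w * (dX U w ^ 2 + dY U w ^ 2) +
      K w * (2 * (dX U w * dX (dX U) w + dY U w * dY (dX U) w)))) z 1 := by
    show fderiv ℝ (dX (gw K U)) z 1 = _
    rw [hev.fderiv_eq]
  rw [e1]
  have s1 : dX (dY U) z = dY (dX U) z := (symm2 H.op H.sm hz 1 I).symm
  have sF : ContDiffOn ℝ ∞ (fun w => 2 * (U w * dX U w) +
      (dX K w * (dX U w ^ 2 + dY U w ^ 2) +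
      K w * (2 * (dX U w * dX (dX U) w + dY U w * dY (dX U) w)))) B :=
    (contDiffOn_const.mul (H.sm.mul H.sX)).add ((H.sKX.mul ((H.sX.pow 2).add (H.sY.pow 2))).add
      (H.sK.mul (contDiffOn_const.mul ((H.sX.mul H.sXX).add (H.sY.mul H.sXY)))))
  apply fd_line (rdA H.op sF hz)
  have a0 := lineD (rdA H.op H.sm hz) 1
  have a1 := lineD (rdA H.op H.sX hz) 1
  have a2 := lineD (rdA H.op H.sY hz) 1
  have a3 := lineD (rdA H.op H.sK hz) 1
  have a4 := lineD (rdA H.op H.sKX hz) 1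
  have a5 := lineD (rdA H.op H.sXX hz) 1
  have a6 := lineD (rdA H.op H.sXY hz) 1
  refine (((a0.mul a1).const_mul 2).add ((a4.mul ((a1.pow 2).add (a2.pow 2))).add
    (a3.mul (((a1.mul a5).add (a2.mul a6)).const_mul 2)))).congr_deriv ?_
  have e : ∀ F : ℂ → ℝ, fderiv ℝ F z 1 = dX F z := fun _ => rfl
  simp only [Pi.add_apply, Pi.mul_apply, Pi.pow_apply, zero_smul, add_zero, PP, e, s1]
  push_cast
  ring

lemma So.wYY (H : So B K U) {z : ℂ} (hz : z ∈ B) :
    dY (dY (gw K U)) z = 2 * (dY U z ^ 2 + U z * dY (dY U) z) + (dY (dY K) z * PP U z +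
      4 * dY K z * (dX U z * dY (dX U) z + dY U z * dY (dY U) z) +
      2 * K z * (dY (dX U) z ^ 2 + dX U z * dY (dY (dX U)) z + dY (dY U) z ^ 2 +
        dY U z * dY (dY (dY U)) z)) := by
  have hev : dY (gw K U) =ᶠ[𝓝 z] fun w => 2 * (U w * dY U w) + (dY K w * (dX U w ^ 2 + dY U w ^ 2) +
      K w * (2 * (dX U w * dY (dX U) w + dY U w * dY (dY U) w))) := by
    filter_upwards [H.op.mem_nhds hz] with w hw
    exact H.wY hw
  have e1 : dY (dY (gw K U)) z = fderiv ℝ (fun w => 2 * (U w * dY U w) +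
      (dY K w * (dX U w ^ 2 + dY U w ^ 2) +
      K w * (2 * (dX U w * dY (dX U) w + dY U w * dY (dY U) w)))) z I := by
    show fderiv ℝ (dY (gw K U)) z I = _
    rw [hev.fderiv_eq]
  rw [e1]
  have sF : ContDiffOn ℝ ∞ (fun w => 2 * (U w * dY U w) +
      (dY K w * (dX U w ^ 2 + dY U w ^ 2) +
      K w * (2 * (dX U w * dY (dX U) w + dY U w * dY (dY U) w)))) B :=
    (contDiffOn_const.mul (H.sm.mul H.sY)).add ((H.sKY.mul ((H.sX.pow 2).add (H.sY.pow 2))).add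
      (H.sK.mul (contDiffOn_const.mul ((H.sX.mul H.sXY).add (H.sY.mul H.sYY)))))
  apply fd_line (rdA H.op sF hz)
  have a0 := lineD (rdA H.op H.sm hz) I
  have a1 := lineD (rdA H.op H.sX hz) I
  have a2 := lineD (rdA H.op H.sY hz) I
  have a3 := lineD (rdA H.op H.sK hz) I
  have a4 := lineD (rdA H.op H.sKY hz) I
  have a5 := lineD (rdA H.op H.sXY hz) I
  have a6 := lineD (rdA H.op H.sYY hz) I
  refine (((a0.mul a2).const_mul 2).add ((a4.mul ((a1.pow 2).add (a2.pow 2))).add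
    (a3.mul (((a1.mul a5).add (a2.mul a6)).const_mul 2)))).congr_deriv ?_
  have e : ∀ F : ℂ → ℝ, fderiv ℝ F z I = dY F z := fun _ => rfl
  simp only [Pi.add_apply, Pi.mul_apply, Pi.pow_apply, zero_smul, add_zero, PP, e]
  push_cast
  ring

/-- **The Laplacian of `w`.** -/
lemma So.lapw (H : So B K U) {z : ℂ} (hz : z ∈ B) :
    gs K U z * (dX (dX (gw K U)) z + dY (dY (gw K U)) z) =
      (dX (gw K U) z ^ 2 + dY (gw K U) z ^ 2) -
        2 * U z * (dX (gw K U) z * dX U z + dY (gw K U) z * dY U z) +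
        (K z * (dX (dX K) z + dY (dY K) z) - (dX K z ^ 2 + dY K z ^ 2)) * PP U z ^ 2 := by
  obtain ⟨h1, h2⟩ := H.third hz
  have h3 := H.eq z hz
  rw [H.wXX hz, H.wYY hz, H.wX hz, H.wY hz]
  simp only [gs, PP]
  linear_combination (2 * K z * (dX U z ^ 2 + dY U z ^ 2) * dX U z) * h1 +
    (2 * K z * (dX U z ^ 2 + dY U z ^ 2) * dY U z) * h2 +
    (2 * K z * (dX U z ^ 2 + dY U z ^ 2) * (dX (dX U) z + dY (dY U) z) -
      4 * K z * (dX U z ^ 2 * dX (dX U) z + 2 * dX U z * dY U z * dY (dX U) z +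
        dY U z ^ 2 * dY (dY U) z) -
      2 * (dX U z ^ 2 + dY U z ^ 2) * (dX U z * dX K z + dY U z * dY K z)) * h3

end

end Pool.Agent.Helper32.EV
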