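import Pool.Agent.Helper32.EV.A

/-!
Project EV (helper32): the divergence identities, pointwise.
-/

set_option autoImplicit false
open MeasureTheory Filter Topology Complex
open scoped ContDiff ENNReal

namespace Pool.Agent.Helper32.EV

open Pool.Agent.W745.RW Pool.Agent.TH421.AC Pool.Agent.N252.TV

noncomputable section

variable {B : Set ℂ} {K U : ℂ → ℝ}

/-- `∇w · ∇U` -/
def gD (K U : ℂ → ℝ) (z : ℂ) : ℝ := dX (gw K U) z * dX U z + dY (gw K U) z * dY U z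

/-- `|∇w|²` -/
def gN (K U : ℂ → ℝ) (z : ℂ) : ℝ := dX (gw K U) z ^ 2 + dY (gw K U) z ^ 2

/-- the curvature term -/
def gG (K U : ℂ → ℝ) (z : ℂ) : ℝ :=
  (K z * (dX (dX K) z + dY (dY K) z) - (dX K z ^ 2 + dY K z ^ 2)) * PP U z ^ 2

lemma gN_nn (z : ℂ) : 0 ≤ gN K U z := by unfold gN; positivity

lemma gw_eq (z : ℂ) : gw K U z = U z ^ 2 + gs K U z := rfl

lemma So.sgD (H : So B K U) : ContDiffOn ℝ ∞ (gD K U) B :=
  (H.swX.mul H.sX).add (H.swY.mul H.sY)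
lemma So.sgN (H : So B K U) : ContDiffOn ℝ ∞ (gN K U) B := (H.swX.pow 2).add (H.swY.pow 2)
lemma So.sgG (H : So B K U) : ContDiffOn ℝ ∞ (gG K U) B :=
  ((H.sK.mul ((rsd H.op H.sKX 1).add (rsd H.op H.sKY I))).sub
    ((H.sKX.pow 2).add (H.sKY.pow 2))).mul (H.sPP.pow 2)

/-- the first vector field -/
def fb (K U : ℂ → ℝ) (a j : ℕ) (z : ℂ) : ℝ := gw K U z ^ a * U z ^ (2 * j + 1)

/-- the second vector field -/
def fc (K U : ℂ → ℝ) (a j : ℕ) (z : ℂ) : ℝ := gs K U z * (gw K U z ^ a * U z ^ (2 * j))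

lemma So.sfb (H : So B K U) (a j : ℕ) : ContDiffOn ℝ ∞ (fb K U a j) B :=
  (H.sgw.pow a).mul (H.sm.pow _)
lemma So.sfc (H : So B K U) (a j : ℕ) : ContDiffOn ℝ ∞ (fc K U a j) B :=
  H.sgs.mul ((H.sgw.pow a).mul (H.sm.pow _))

lemma So.dfb (H : So B K U) (a j : ℕ) {z : ℂ} (hz : z ∈ B) (v : ℂ) :
    fderiv ℝ (fb K U a j) z v =
      (a : ℝ) * gw K U z ^ (a - 1) * fderiv ℝ (gw K U) z v * U z ^ (2 * j + 1) +
      gw K U z ^ a * ((2 * j + 1 : ℝ) * U z ^ (2 * j) * fderiv ℝ U z v) := by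
  apply fd_line (rdA H.op (H.sfb a j) hz)
  have a0 := lineD (rdA H.op H.sm hz) v
  have a1 := lineD (rdA H.op H.sgw hz) v
  refine ((a1.pow a).mul (a0.pow (2 * j + 1))).congr_deriv ?_
  simp only [Pi.pow_apply, zero_smul, add_zero, Nat.add_sub_cancel]
  push_cast
  ring

lemma So.dgs (H : So B K U) {z : ℂ} (hz : z ∈ B) (v : ℂ) :
    fderiv ℝ (gs K U) z v = fderiv ℝ (gw K U) z v - 2 * U z * fderiv ℝ U z v := by
  apply fd_line (rdA H.op H.sgs hz)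
  have a0 := lineD (rdA H.op H.sm hz) v
  have a1 := lineD (rdA H.op H.sgw hz) v
  have e : (fun t : ℝ => gs K U (z + t • v)) =
      (fun t : ℝ => gw K U (z + t • v)) - (fun t : ℝ => U (z + t • v)) ^ 2 := by
    funext t
    simp only [Pi.sub_apply, Pi.pow_apply, gw_eq]
    ring
  rw [e]
  refine (a1.sub (a0.pow 2)).congr_deriv ?_
  simp only [zero_smul, add_zero]
  push_cast
  ring

lemma So.dfc (H : So B K U) (a j : ℕ) {z : ℂ} (hz : z ∈ B) (v : ℂ) :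
    fderiv ℝ (fc K U a j) z v =
      (fderiv ℝ (gw K U) z v - 2 * U z * fderiv ℝ U z v) * (gw K U z ^ a * U z ^ (2 * j)) +
      gs K U z * ((a : ℝ) * gw K U z ^ (a - 1) * fderiv ℝ (gw K U) z v * U z ^ (2 * j) +
        gw K U z ^ a * ((2 * j : ℝ) * U z ^ (2 * j - 1) * fderiv ℝ U z v)) := by
  apply fd_line (rdA H.op (H.sfc a j) hz)
  have a0 := lineD (rdA H.op H.sm hz) v
  have a1 := lineD (rdA H.op H.sgw hz) v
  have a2 := lineD (rdA H.op H.sgs hz) v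
  rw [H.dgs hz v] at a2
  refine (a2.mul ((a1.pow a).mul (a0.pow (2 * j)))).congr_deriv ?_
  simp only [Pi.pow_apply, Pi.mul_apply, zero_smul, add_zero]
  push_cast
  ring

/-- the first divergence -/
lemma So.divb (H : So B K U) (a j : ℕ) {z : ℂ} (hz : z ∈ B) {l r : ℝ} (hl : K z * r = l) :
    l * (fderiv ℝ (fun w => fb K U a j w * dX U w) z 1 +
      fderiv ℝ (fun w => fb K U a j w * dY U w) z I) =
    r * ((2 * j + 1 : ℝ) * (gw K U z ^ (a + 1) * U z ^ (2 * j)) -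
      (2 * j + 2 : ℝ) * (gw K U z ^ a * U z ^ (2 * (j + 1)))) +
    (a : ℝ) * (l * (gw K U z ^ (a - 1) * U z ^ (2 * j + 1) * gD K U z)) := by
  rw [fderiv_fun_mul (rdA H.op (H.sfb a j) hz) (rdA H.op H.sX hz),
    fderiv_fun_mul (rdA H.op (H.sfb a j) hz) (rdA H.op H.sY hz)]
  simp only [add_apply, smul_apply, smul_eq_mul]
  rw [H.dfb a j hz 1, H.dfb a j hz I]
  have h3 := H.eq z hz
  have e1 : ∀ F : ℂ → ℝ, fderiv ℝ F z 1 = dX F z := fun _ => rfl
  have e2 : ∀ F : ℂ → ℝ, fderiv ℝ F z I = dY F z := fun _ => rfl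
  simp only [e1, e2]
  have e3 : U z ^ (2 * (j + 1)) = U z ^ (2 * j) * U z ^ 2 := by ring
  have e4 : U z ^ (2 * j + 1) = U z ^ (2 * j) * U z := by ring
  have e5 : gw K U z ^ (a + 1) = gw K U z ^ a * (U z ^ 2 + K z * PP U z) := by
    rw [pow_succ]; rfl
  rw [e3, e4, e5, ← hl]
  simp only [fb, gD, PP]
  rw [e4]
  linear_combination (gw K U z ^ a * U z ^ (2 * j) * U z * r) * h3

/-- the second divergence -/
lemma So.divc (H : So B K U) (a j : ℕ) {z : ℂ} (hz : z ∈ B) :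
    (fderiv ℝ (fun w => fc K U a j w * dX (gw K U) w) z 1 +
      fderiv ℝ (fun w => fc K U a j w * dY (gw K U) w) z I) =
    (2 * gw K U z ^ a + (a : ℝ) * gs K U z * gw K U z ^ (a - 1)) * U z ^ (2 * j) * gN K U z +
    (gw K U z ^ a * U z ^ (2 * j)) * gG K U z +
    (2 * j : ℝ) * (gw K U z ^ (a + 1) * U z ^ (2 * j - 1) * gD K U z) -
    (2 * j + 4 : ℝ) * (gw K U z ^ a * U z ^ (2 * j + 1) * gD K U z) := by
  rw [fderiv_fun_mul (rdA H.op (H.sfc a j) hz) (rdA H.op H.swX hz),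
    fderiv_fun_mul (rdA H.op (H.sfc a j) hz) (rdA H.op H.swY hz)]
  simp only [add_apply, smul_apply, smul_eq_mul]
  rw [H.dfc a j hz 1, H.dfc a j hz I]
  have h3 := H.lapw hz
  have e1 : ∀ F : ℂ → ℝ, fderiv ℝ F z 1 = dX F z := fun _ => rfl
  have e2 : ∀ F : ℂ → ℝ, fderiv ℝ F z I = dY F z := fun _ => rfl
  simp only [e1, e2]
  have e4 : U z ^ (2 * j + 1) = U z ^ (2 * j) * U z := by ring
  have e6 : (2 * j : ℝ) * U z ^ (2 * j + 1) = (2 * j : ℝ) * (U z ^ (2 * j - 1) * U z ^ 2) := by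
    rcases Nat.eq_zero_or_pos j with h | h
    · subst h; simp
    · have : 2 * j + 1 = (2 * j - 1) + 2 := by omega
      rw [this, pow_add]
  have e5 : gw K U z ^ (a + 1) = gw K U z ^ a * (U z ^ 2 + gs K U z) := by
    rw [pow_succ]; rfl
  rw [e5]
  simp only [fc]
  have e7 : gG K U z = (K z * (dX (dX K) z + dY (dY K) z) - (dX K z ^ 2 + dY K z ^ 2)) *
    PP U z ^ 2 := rfl
  rw [← e7] at h3
  simp only [gD, gN] at h3 ⊢
  rw [e4] at e6 ⊢
  linear_combination (gw K U z ^ a * U z ^ (2 * j)) * h3 +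
    (gw K U z ^ a * (dX (gw K U) z * dX U z + dY (gw K U) z * dY U z)) * e6

end

end Pool.Agent.Helper32.EV
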