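import Pool.Agent.N252.TV.M

/-!
Project EV (helper32): the square of the gradient of a nonnegative test function.
-/

set_option autoImplicit false
open MeasureTheory Filter Topology Complex
open scoped ContDiff ENNReal

namespace Pool.Agent.Helper32.EV

open Pool.Agent.W745.RW Pool.Agent.TH421.AC Pool.Agent.N252.TV

noncomputable section

/-- a nonnegative function with bounded second derivative -/
lemma sq_line {f f' f'' : ℝ → ℝ} (h1 : ∀ t, HasDerivAt f (f' t) t)
    (h2 : ∀ t, HasDerivAt f' (f'' t) t) {M : ℝ} (hM : 0 < M) (hb : ∀ t, |f'' t| ≤ M)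
    (h0 : ∀ t, 0 ≤ f t) : f' 0 ^ 2 ≤ 2 * M * f 0 := by
  obtain ⟨g, hg⟩ : ∃ g : ℝ → ℝ, g = fun t => f 0 + f' 0 * t + M / 2 * t ^ 2 - f t := ⟨_, rfl⟩
  obtain ⟨g', hg'⟩ : ∃ g' : ℝ → ℝ, g' = fun t => f' 0 + M * t - f' t := ⟨_, rfl⟩
  have d1 : ∀ t, HasDerivAt g (g' t) t := by
    intro t
    rw [hg, hg']
    have a1 : HasDerivAt (fun t : ℝ => f 0 + f' 0 * t + M / 2 * t ^ 2)
        (f' 0 * 1 + M / 2 * (2 * t)) t := by
      have b1 : HasDerivAt (fun t : ℝ => f 0 + f' 0 * t) (f' 0 * 1) t :=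
        ((hasDerivAt_id t).const_mul (f' 0)).const_add (f 0)
      have b2 : HasDerivAt (fun t : ℝ => t ^ 2) (2 * t) t := by simpa using hasDerivAt_pow 2 t
      exact b1.add (b2.const_mul (M / 2))
    refine (a1.sub (h1 t)).congr_deriv ?_
    ring
  have d2 : ∀ t, HasDerivAt g' (M - f'' t) t := by
    intro t
    rw [hg']
    have a1 : HasDerivAt (fun t : ℝ => f' 0 + M * t) (M * 1) t :=
      ((hasDerivAt_id t).const_mul M).const_add (f' 0)
    refine (a1.sub (h2 t)).congr_deriv ?_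
    ring
  have m2 : Monotone g' := monotone_of_deriv_nonneg (fun t => (d2 t).differentiableAt) fun t => by
    rw [(d2 t).deriv]
    have := le_abs_self (f'' t)
    linarith [hb t]
  have z1 : g' 0 = 0 := by rw [hg']; simp
  have z0 : g 0 = 0 := by rw [hg]; simp
  have key : ∀ t, 0 ≤ g t := by
    intro t
    rcases le_total 0 t with ht | ht
    · have hm : MonotoneOn g (Set.Ici 0) := by
        refine monotoneOn_of_deriv_nonneg (convex_Ici 0)
          (fun t _ => (d1 t).continuousAt.continuousWithinAt)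
          (fun t _ => (d1 t).differentiableAt.differentiableWithinAt) fun t ht' => ?_
        rw [interior_Ici] at ht'
        rw [(d1 t).deriv, ← z1]
        exact m2 (le_of_lt ht')
      have := hm (Set.mem_Ici.2 le_rfl) (Set.mem_Ici.2 ht) ht
      rwa [z0] at this
    · have hm : AntitoneOn g (Set.Iic 0) := by
        refine antitoneOn_of_deriv_nonpos (convex_Iic 0)
          (fun t _ => (d1 t).continuousAt.continuousWithinAt)
          (fun t _ => (d1 t).differentiableAt.differentiableWithinAt) fun t ht' => ?_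
        rw [interior_Iic] at ht'
        rw [(d1 t).deriv, ← z1]
        exact m2 (le_of_lt ht')
      have := hm (Set.mem_Iic.2 ht) (Set.mem_Iic.2 le_rfl) ht
      rwa [z0] at this
  have h3 := key (-(f' 0 / M))
  have h4 := h0 (-(f' 0 / M))
  rw [hg] at h3
  simp only at h3
  have h5 : 0 ≤ f 0 + f' 0 * (-(f' 0 / M)) + M / 2 * (-(f' 0 / M)) ^ 2 := by linarith
  have h6 : f 0 + f' 0 * (-(f' 0 / M)) + M / 2 * (-(f' 0 / M)) ^ 2 = f 0 - f' 0 ^ 2 / (2 * M) := by
    field_simp
    ring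
  rw [h6] at h5
  have h7 : f' 0 ^ 2 / (2 * M) ≤ f 0 := by linarith
  rw [div_le_iff₀ (by positivity)] at h7
  linarith

/-- bounds for a nonnegative test function -/
lemma tf_bds {B : Set ℂ} {φ : ℂ → ℝ} (hφ : TF B φ) (h0 : ∀ z, 0 ≤ φ z) : ∃ M : ℝ, 0 < M ∧
    (∀ z, φ z ≤ M) ∧ (∀ z, |fderiv ℝ φ z 1| ≤ M ∧ |fderiv ℝ φ z I| ≤ M) ∧
    ∀ z, fderiv ℝ φ z 1 ^ 2 ≤ M * φ z ∧ fderiv ℝ φ z I ^ 2 ≤ M * φ z := by
  have s1 : ∀ v, ContDiff ℝ ∞ (fun z => fderiv ℝ φ z v) := fun v =>
    (hφ.1.fderiv_right (m := ∞) le_rfl).clm_apply contDiff_const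
  have s2 : ∀ v, ContDiff ℝ ∞ (fun z => fderiv ℝ (fun w => fderiv ℝ φ w v) z v) := fun v =>
    ((s1 v).fderiv_right (m := ∞) le_rfl).clm_apply contDiff_const
  have k1 : ∀ v, HasCompactSupport (fun z => fderiv ℝ φ z v) := fun v => hφ.2.1.fderiv_apply ℝ v
  have k2 : ∀ v, HasCompactSupport (fun z => fderiv ℝ (fun w => fderiv ℝ φ w v) z v) := fun v =>
    (k1 v).fderiv_apply ℝ v
  obtain ⟨A0, hA0⟩ := hφ.2.1.exists_bound_of_continuous hφ.1.continuous
  obtain ⟨A1, hA1⟩ := (k1 1).exists_bound_of_continuous (s1 1).continuous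
  obtain ⟨A2, hA2⟩ := (k1 I).exists_bound_of_continuous (s1 I).continuous
  obtain ⟨A3, hA3⟩ := (k2 1).exists_bound_of_continuous (s2 1).continuous
  obtain ⟨A4, hA4⟩ := (k2 I).exists_bound_of_continuous (s2 I).continuous
  simp only [Real.norm_eq_abs] at hA0 hA1 hA2 hA3 hA4
  obtain ⟨N, hN⟩ : ∃ N : ℝ, N = 1 + |A0| + |A1| + |A2| + |A3| + |A4| := ⟨_, rfl⟩
  have N0 : 0 < N := by rw [hN]; positivity
  have b0 := abs_nonneg A0
  have b1 := abs_nonneg A1
  have b2 := abs_nonneg A2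
  have b3 := abs_nonneg A3
  have b4 := abs_nonneg A4
  have c0 := le_abs_self A0
  have c1 := le_abs_self A1
  have c2 := le_abs_self A2
  have c3 := le_abs_self A3
  have c4 := le_abs_self A4
  have key : ∀ v : ℂ, (∀ z, |fderiv ℝ (fun w => fderiv ℝ φ w v) z v| ≤ N) → ∀ z,
      fderiv ℝ φ z v ^ 2 ≤ 2 * N * φ z := by
    intro v hv z
    have h1 : ∀ t : ℝ, HasDerivAt (fun t : ℝ => φ (z + t • v)) (fderiv ℝ φ (z + t • v) v) t := by
      intro t
      have e1 : HasDerivAt (fun t : ℝ => z + t • v) v t := by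
        simpa using ((hasDerivAt_id t).smul_const v).const_add z
      exact (hφ.1.differentiable (by simp) (z + t • v)).hasFDerivAt.comp_hasDerivAt t e1
    have h2 : ∀ t : ℝ, HasDerivAt (fun t : ℝ => fderiv ℝ φ (z + t • v) v)
        (fderiv ℝ (fun w => fderiv ℝ φ w v) (z + t • v) v) t := by
      intro t
      have e1 : HasDerivAt (fun t : ℝ => z + t • v) v t := by
        simpa using ((hasDerivAt_id t).smul_const v).const_add z
      exact ((s1 v).differentiable (by simp) (z + t • v)).hasFDerivAt.comp_hasDerivAt t e1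
    have := sq_line h1 h2 N0 (fun t => hv _) fun t => h0 _
    simpa using this
  refine ⟨2 * N, by positivity, fun z => ?_, fun z => ⟨?_, ?_⟩, fun z => ⟨?_, ?_⟩⟩
  · have := (le_abs_self (φ z)).trans (hA0 z)
    linarith
  · have := hA1 z
    linarith
  · have := hA2 z
    linarith
  · exact key 1 (fun z => (hA3 z).trans (by linarith)) z
  · exact key I (fun z => (hA4 z).trans (by linarith)) z

/-- completing the square -/
lemma sq_low {f p x s c : ℝ} (f0 : 0 ≤ f) (hc : 0 ≤ c) (hp : p ^ 2 ≤ c * f) :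
    - (c / 4 * s ^ 2) ≤ f * x ^ 2 + s * (p * x) := by
  rcases f0.eq_or_lt with h | h
  · have hp0 : p = 0 := by
      rw [← h, mul_zero] at hp
      exact pow_eq_zero_iff two_ne_zero |>.1 (le_antisymm hp (sq_nonneg p))
    rw [hp0, ← h]
    have := mul_nonneg hc (sq_nonneg s)
    linarith
  · have h1 : 0 ≤ f * (f * x ^ 2 + s * (p * x) + c / 4 * s ^ 2) := by
      have e : f * (f * x ^ 2 + s * (p * x) + c / 4 * s ^ 2) =
        (f * x + s * p / 2) ^ 2 + s ^ 2 * ((c * f - p ^ 2) / 4) := by ring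
      rw [e]
      have : 0 ≤ (c * f - p ^ 2) / 4 := by linarith
      positivity
    have h2 := nonneg_of_mul_nonneg_right h1 h
    linarith

end

end Pool.Agent.Helper32.EV
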