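import Pool.Agent.Helper32.EV.B
import Pool.Agent.Helper32.EV.C

/-!
Project EV (helper32): the integrated inequalities in a chart.
-/

set_option autoImplicit false
open MeasureTheory Filter Topology Complex
open scoped ContDiff ENNReal

namespace Pool.Agent.Helper32.EV

open Pool.Agent.W745.RW Pool.Agent.TH421.AC Pool.Agent.N252.TV

noncomputable section

variable {B : Set ℂ} {ρ φ U : ℂ → ℝ} {l : ℝ}

/-- `l / ρ` -/
def kk (ρ : ℂ → ℝ) (l : ℝ) (z : ℂ) : ℝ := l * (ρ z)⁻¹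

/-- the curvature factor -/
def R0 (ρ : ℂ → ℝ) (z : ℂ) : ℝ :=
  ((ρ z)⁻¹ * (dX (dX fun w => (ρ w)⁻¹) z + dY (dY fun w => (ρ w)⁻¹) z) -
    (dX (fun w => (ρ w)⁻¹) z ^ 2 + dY (fun w => (ρ w)⁻¹) z ^ 2)) * ρ z ^ 2

lemma R0_cont (hB : IsOpen B) (hρ : ContDiffOn ℝ ∞ ρ B) (h0 : ∀ z ∈ B, 0 < ρ z) :
    ContinuousOn (R0 ρ) B := by
  have s0 : ContDiffOn ℝ ∞ (fun w => (ρ w)⁻¹) B := hρ.inv fun z hz => (h0 z hz).ne'
  have sX := rsd hB s0 1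
  have sY := rsd hB s0 I
  have sXX := rsd hB sX 1
  have sYY := rsd hB sY I
  exact ((s0.continuousOn.mul (sXX.continuousOn.add sYY.continuousOn)).sub
    ((sX.continuousOn.pow 2).add (sY.continuousOn.pow 2))).mul (hρ.continuousOn.pow 2)

/-- the curvature term -/
lemma gG_eq (hB : IsOpen B) (hρ : ContDiffOn ℝ ∞ ρ B) (h0 : ∀ z ∈ B, 0 < ρ z) {z : ℂ}
    (hz : z ∈ B) : gG (kk ρ l) U z = R0 ρ z * gs (kk ρ l) U z ^ 2 := by
  have s0 : ContDiffOn ℝ ∞ (fun w => (ρ w)⁻¹) B := hρ.inv fun z hz => (h0 z hz).ne'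
  have sX := rsd hB s0 1
  have sY := rsd hB s0 I
  have g1 : ∀ {F : ℂ → ℝ}, ContDiffOn ℝ ∞ F B → ∀ v, ∀ w ∈ B,
      fderiv ℝ (fun y => l * F y) w v = l * fderiv ℝ F w v := by
    intro F hF v w hw
    rw [fderiv_const_mul (rdA hB hF hw)]
    simp
  have eX : ∀ w ∈ B, dX (kk ρ l) w = l * dX (fun w => (ρ w)⁻¹) w := fun w hw => g1 s0 1 w hw
  have eY : ∀ w ∈ B, dY (kk ρ l) w = l * dY (fun w => (ρ w)⁻¹) w := fun w hw => g1 s0 I w hw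
  have eXX : dX (dX (kk ρ l)) z = l * dX (dX fun w => (ρ w)⁻¹) z := by
    have hev : dX (kk ρ l) =ᶠ[𝓝 z] fun w => l * dX (fun w => (ρ w)⁻¹) w := by
      filter_upwards [hB.mem_nhds hz] with w hw
      exact eX w hw
    have : dX (dX (kk ρ l)) z = fderiv ℝ (fun w => l * dX (fun w => (ρ w)⁻¹) w) z 1 := by
      show fderiv ℝ (dX (kk ρ l)) z 1 = _
      rw [hev.fderiv_eq]
    rw [this]
    exact g1 sX 1 z hz
  have eYY : dY (dY (kk ρ l)) z = l * dY (dY fun w => (ρ w)⁻¹) z := by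
    have hev : dY (kk ρ l) =ᶠ[𝓝 z] fun w => l * dY (fun w => (ρ w)⁻¹) w := by
      filter_upwards [hB.mem_nhds hz] with w hw
      exact eY w hw
    have : dY (dY (kk ρ l)) z = fderiv ℝ (fun w => l * dY (fun w => (ρ w)⁻¹) w) z I := by
      show fderiv ℝ (dY (kk ρ l)) z I = _
      rw [hev.fderiv_eq]
    rw [this]
    exact g1 sY I z hz
  have hρz := (h0 z hz).ne'
  unfold gG gs R0
  rw [eXX, eYY, eX z hz, eY z hz]
  have hk : kk ρ l z = l * (ρ z)⁻¹ := rfl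
  rw [hk]
  field_simp

/-- the constants of a chart -/
structure Cst (B : Set ℂ) (ρ φ : ℂ → ℝ) (M r : ℝ) : Prop where
  op : IsOpen B
  sr : ContDiffOn ℝ ∞ ρ B
  pos : ∀ z ∈ B, 0 < ρ z
  tf : TF B φ
  nn : ∀ z, 0 ≤ φ z
  M0 : 0 < M
  r0 : 0 < r
  b0 : ∀ z, φ z ≤ M
  b1 : ∀ z, |fderiv ℝ φ z 1| ≤ M ∧ |fderiv ℝ φ z I| ≤ M
  b2 : ∀ z, fderiv ℝ φ z 1 ^ 2 ≤ M * φ z ∧ fderiv ℝ φ z I ^ 2 ≤ M * φ z
  b3 : ∀ z ∈ tsupport φ, 1 ≤ r ^ 2 * ρ z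
  b4 : ∀ z ∈ tsupport φ, |R0 ρ z| ≤ M

lemma exists_cst (hB : IsOpen B) (hρ : ContDiffOn ℝ ∞ ρ B) (h0 : ∀ z ∈ B, 0 < ρ z)
    (hφ : TF B φ) (hn : ∀ z, 0 ≤ φ z) : ∃ M r : ℝ, Cst B ρ φ M r := by
  obtain ⟨M, M0, a0, a1, a2⟩ := tf_bds hφ hn
  have hS : IsCompact (tsupport φ) := hφ.2.1
  obtain ⟨N, hN⟩ := hS.exists_bound_of_continuousOn ((R0_cont hB hρ h0).mono hφ.2.2)
  obtain ⟨c, c0, hc⟩ := exists_low hS (hρ.continuousOn.mono hφ.2.2) fun z hz => h0 z (hφ.2.2 hz)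
  refine ⟨M + |N|, √(c⁻¹), hB, hρ, h0, hφ, hn, by positivity, by positivity, fun z => ?_,
    fun z => ⟨?_, ?_⟩, fun z => ⟨?_, ?_⟩, fun z hz => ?_, fun z hz => ?_⟩
  · exact (a0 z).trans (by linarith [abs_nonneg N])
  · exact (a1 z).1.trans (by linarith [abs_nonneg N])
  · exact (a1 z).2.trans (by linarith [abs_nonneg N])
  · exact (a2 z).1.trans (mul_le_mul_of_nonneg_right (by linarith [abs_nonneg N]) (hn z))
  · exact (a2 z).2.trans (mul_le_mul_of_nonneg_right (by linarith [abs_nonneg N]) (hn z))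
  · rw [Real.sq_sqrt (by positivity), inv_mul_eq_div, one_le_div c0]
    exact hc z hz
  · have := hN z hz
    rw [Real.norm_eq_abs] at this
    exact this.trans (by linarith [le_abs_self N])

variable {M r : ℝ}

lemma Cst.kpos (H : Cst B ρ φ M r) (hl : 0 < l) {z : ℂ} (hz : z ∈ B) : 0 < kk ρ l z :=
  mul_pos hl (inv_pos.2 (H.pos z hz))

lemma Cst.kr (H : Cst B ρ φ M r) {z : ℂ} (hz : z ∈ B) : kk ρ l z * ρ z = l := by
  have := (H.pos z hz).ne'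
  unfold kk
  field_simp

lemma Cst.gs0 (H : Cst B ρ φ M r) (hl : 0 < l) {z : ℂ} (hz : z ∈ B) : 0 ≤ gs (kk ρ l) U z :=
  mul_nonneg (H.kpos hl hz).le (PP_nn U z)

lemma Cst.gw0 (H : Cst B ρ φ M r) (hl : 0 < l) {z : ℂ} (hz : z ∈ B) : 0 ≤ gw (kk ρ l) U z :=
  add_nonneg (sq_nonneg _) (H.gs0 hl hz)

lemma Cst.u2 (H : Cst B ρ φ M r) (hl : 0 < l) {z : ℂ} (hz : z ∈ B) (j : ℕ) :
    0 ≤ U z ^ (2 * j) ∧ U z ^ (2 * j) ≤ gw (kk ρ l) U z ^ j := by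
  rw [pow_mul]
  refine ⟨pow_nonneg (sq_nonneg _) j, pow_le_pow_left₀ (sq_nonneg _) ?_ j⟩
  have := H.gs0 (U := U) hl hz
  rw [gw_eq]
  linarith

/-- the first boundary term -/
lemma Cst.p1 (H : Cst B ρ φ M r) (hl : 0 < l) (a j : ℕ) {z : ℂ} (hz : z ∈ tsupport φ) :
    |l * (fderiv ℝ φ z 1 * (fb (kk ρ l) U a j z * dX U z) +
      fderiv ℝ φ z I * (fb (kk ρ l) U a j z * dY U z))| ≤
      M * r * √l * (ρ z * gw (kk ρ l) U z ^ (a + j + 1)) := by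
  have hzB := H.tf.2.2 hz
  obtain ⟨g, hg⟩ : ∃ g, g = √l := ⟨_, rfl⟩
  have g0 : 0 < g := by rw [hg]; exact Real.sqrt_pos.2 hl
  have gl : g ^ 2 = l := by rw [hg]; exact Real.sq_sqrt hl.le
  obtain ⟨W, hW⟩ : ∃ W, W = gw (kk ρ l) U z := ⟨_, rfl⟩
  have W0 : 0 ≤ W := by rw [hW]; exact H.gw0 hl hzB
  obtain ⟨u0, u1⟩ := H.u2 (U := U) hl hzB j
  have M0 := H.M0
  have r0 := H.r0
  have hρ := H.pos z hzB
  have h3 := H.b3 z hz
  have e1 : |fb (kk ρ l) U a j z| = W ^ a * (U z ^ (2 * j) * |U z|) := by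
    unfold fb
    rw [← hW, pow_succ, abs_mul, abs_mul, abs_of_nonneg (pow_nonneg W0 a), abs_of_nonneg u0]
  have key : g * (|U z| * (|dX U z| + |dY U z|)) ≤ r * (ρ z * W) := by
    have e2 : ρ z * W = ρ z * U z ^ 2 + g ^ 2 * (|dX U z| ^ 2 + |dY U z| ^ 2) := by
      rw [hW, gl, sq_abs, sq_abs]
      unfold gw
      have := H.kr (l := l) hzB
      unfold PP
      linear_combination (dX U z ^ 2 + dY U z ^ 2) * this
    rw [e2]
    have e3 := sq_abs (U z)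
    rw [← e3]
    have q1 : 0 ≤ (|U z| - 2 * r * g * |dX U z|) ^ 2 := sq_nonneg _
    have q2 : 0 ≤ (|U z| - 2 * r * g * |dY U z|) ^ 2 := sq_nonneg _
    have q3 : |U z| ^ 2 * 1 ≤ |U z| ^ 2 * (r ^ 2 * ρ z) :=
      mul_le_mul_of_nonneg_left h3 (sq_nonneg _)
    have q4 : 0 ≤ |U z| ^ 2 := sq_nonneg _
    have q5 : 4 * r * (g * (|U z| * (|dX U z| + |dY U z|))) ≤
        4 * r * (r * (ρ z * |U z| ^ 2 + g ^ 2 * (|dX U z| ^ 2 + |dY U z| ^ 2))) := by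
      nlinarith
    exact le_of_mul_le_mul_left q5 (by positivity)
  have b1 := H.b1 z
  calc |l * (fderiv ℝ φ z 1 * (fb (kk ρ l) U a j z * dX U z) +
      fderiv ℝ φ z I * (fb (kk ρ l) U a j z * dY U z))|
      ≤ l * (M * (|fb (kk ρ l) U a j z| * |dX U z|) + M * (|fb (kk ρ l) U a j z| * |dY U z|)) := by
        rw [abs_mul, abs_of_pos hl]
        refine mul_le_mul_of_nonneg_left ((abs_add_le _ _).trans (add_le_add ?_ ?_)) hl.le
        · rw [abs_mul, abs_mul]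
          exact mul_le_mul_of_nonneg_right b1.1 (by positivity)
        · rw [abs_mul, abs_mul]
          exact mul_le_mul_of_nonneg_right b1.2 (by positivity)
    _ = M * g * (W ^ a * U z ^ (2 * j)) * (g * (|U z| * (|dX U z| + |dY U z|))) := by
        rw [e1, ← gl]; ring
    _ ≤ M * g * (W ^ a * U z ^ (2 * j)) * (r * (ρ z * W)) :=
        mul_le_mul_of_nonneg_left key (by positivity)
    _ ≤ M * g * (W ^ a * W ^ j) * (r * (ρ z * W)) := by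
        rw [← hW] at u1
        have : W ^ a * U z ^ (2 * j) ≤ W ^ a * W ^ j := mul_le_mul_of_nonneg_left u1 (by positivity)
        exact mul_le_mul_of_nonneg_right (mul_le_mul_of_nonneg_left this (by positivity))
          (by positivity)
    _ = M * r * g * (ρ z * W ^ (a + j + 1)) := by ring
    _ = _ := by rw [hg, hW]

/-- the second boundary term -/
lemma Cst.p2 (H : Cst B ρ φ M r) (hl : 0 < l) (a j : ℕ) {z : ℂ} (hz : z ∈ tsupport φ) :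
    -((M + M ^ 2) * r ^ 2 * l * (ρ z * gw (kk ρ l) U z ^ (a + j + 2))) ≤
    φ z * (l * ((2 * gw (kk ρ l) U z ^ a + (a : ℝ) * gs (kk ρ l) U z *
      gw (kk ρ l) U z ^ (a - 1)) * U z ^ (2 * j) * gN (kk ρ l) U z +
      (gw (kk ρ l) U z ^ a * U z ^ (2 * j)) * gG (kk ρ l) U z)) +
    l * (fderiv ℝ φ z 1 * (fc (kk ρ l) U a j z * dX (gw (kk ρ l) U) z) +
      fderiv ℝ φ z I * (fc (kk ρ l) U a j z * dY (gw (kk ρ l) U) z)) := by
  have hzB := H.tf.2.2 hz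
  obtain ⟨W, hW⟩ : ∃ W, W = gw (kk ρ l) U z := ⟨_, rfl⟩
  have W0 : 0 ≤ W := by rw [hW]; exact H.gw0 hl hzB
  obtain ⟨s, hs⟩ : ∃ s, s = gs (kk ρ l) U z := ⟨_, rfl⟩
  have s0 : 0 ≤ s := by rw [hs]; exact H.gs0 hl hzB
  have sW : s ≤ W := by
    rw [hs, hW, gw_eq]
    linarith [sq_nonneg (U z)]
  obtain ⟨u0, u1⟩ := H.u2 (U := U) hl hzB j
  rw [← hW] at u1
  have M0 := H.M0
  have r0 := H.r0
  have hρ := H.pos z hzB
  have h3 := H.b3 z hz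
  have h4 := H.b4 z hz
  have f0 := H.nn z
  have fM := H.b0 z
  have b2 := H.b2 z
  rw [gG_eq H.op H.sr H.pos hzB, ← hs, ← hW]
  unfold fc gN
  rw [← hs, ← hW]
  obtain ⟨x, hx⟩ : ∃ x, x = dX (gw (kk ρ l) U) z := ⟨_, rfl⟩
  obtain ⟨y, hy⟩ : ∃ y, y = dY (gw (kk ρ l) U) z := ⟨_, rfl⟩
  rw [← hx, ← hy]
  obtain ⟨m, hm⟩ : ∃ m, m = W ^ a * U z ^ (2 * j) := ⟨_, rfl⟩
  have m0 : 0 ≤ m := by rw [hm]; positivity
  have mW : m ≤ W ^ (a + j) := by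
    rw [hm, pow_add]
    exact mul_le_mul_of_nonneg_left u1 (by positivity)
  have q1 := sq_low (s := s) (x := x) f0 M0.le b2.1
  have q2 := sq_low (s := s) (x := y) f0 M0.le b2.2
  have q3 : -(M ^ 2 * s ^ 2) ≤ φ z * (R0 ρ z * s ^ 2) := by
    have h5 : |φ z * (R0 ρ z * s ^ 2)| ≤ M * (M * s ^ 2) := by
      rw [abs_mul, abs_mul, abs_of_nonneg f0, abs_of_nonneg (sq_nonneg s)]
      exact mul_le_mul fM (mul_le_mul_of_nonneg_right h4 (sq_nonneg s)) (by positivity) M0.le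
    have := (abs_le.1 h5).1
    linarith
  have q4 : 0 ≤ φ z * ((a : ℝ) * s * W ^ (a - 1) * U z ^ (2 * j) * (x ^ 2 + y ^ 2)) := by
    positivity
  have q5 : 0 ≤ φ z * (x ^ 2 + y ^ 2) := by positivity
  have e : φ z * (l * ((2 * W ^ a + (a : ℝ) * s * W ^ (a - 1)) * U z ^ (2 * j) *
      (x ^ 2 + y ^ 2) + (W ^ a * U z ^ (2 * j)) * (R0 ρ z * s ^ 2))) +
    l * (fderiv ℝ φ z 1 * (s * (W ^ a * U z ^ (2 * j)) * x) +
      fderiv ℝ φ z I * (s * (W ^ a * U z ^ (2 * j)) * y)) =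
      l * m * ((φ z * x ^ 2 + s * (fderiv ℝ φ z 1 * x)) +
        (φ z * y ^ 2 + s * (fderiv ℝ φ z I * y)) + φ z * (R0 ρ z * s ^ 2) +
        φ z * (x ^ 2 + y ^ 2)) +
      l * (φ z * ((a : ℝ) * s * W ^ (a - 1) * U z ^ (2 * j) * (x ^ 2 + y ^ 2))) := by
    rw [hm]; ring
  rw [e]
  have q6 : -((M + M ^ 2) * s ^ 2) ≤ (φ z * x ^ 2 + s * (fderiv ℝ φ z 1 * x)) +
        (φ z * y ^ 2 + s * (fderiv ℝ φ z I * y)) + φ z * (R0 ρ z * s ^ 2) +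
        φ z * (x ^ 2 + y ^ 2) := by
    have : 0 ≤ M * s ^ 2 := by positivity
    linarith
  have q7 := mul_le_mul_of_nonneg_left q6 (by positivity : 0 ≤ l * m)
  have q8 := mul_nonneg hl.le q4
  have q9 : l * m * ((M + M ^ 2) * s ^ 2) ≤
      (M + M ^ 2) * r ^ 2 * l * (ρ z * W ^ (a + j + 2)) := by
    have h5 : m * s ^ 2 ≤ W ^ (a + j) * W ^ 2 :=
      mul_le_mul mW (pow_le_pow_left₀ s0 sW 2) (by positivity) (by positivity)
    have h6 : W ^ (a + j) * W ^ 2 * 1 ≤ W ^ (a + j) * W ^ 2 * (r ^ 2 * ρ z) :=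
      mul_le_mul_of_nonneg_left h3 (by positivity)
    have h7 := mul_le_mul_of_nonneg_left ((h5.trans (le_of_eq (mul_one _).symm)).trans h6)
      (by positivity : 0 ≤ l * (M + M ^ 2))
    refine le_trans (le_of_eq ?_) (h7.trans (le_of_eq ?_))
    · ring
    · ring
  linarith

end

end Pool.Agent.Helper32.EV
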