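import Pool.Agent.Helper32.EV.D

/-!
Project EV (helper32): the integrated inequalities in a chart, part 2.
-/

set_option autoImplicit false
open MeasureTheory Filter Topology Complex
open scoped ContDiff ENNReal

namespace Pool.Agent.Helper32.EV

open Pool.Agent.W745.RW Pool.Agent.TH421.AC Pool.Agent.N252.TV

noncomputable section

variable {B : Set ℂ} {ρ φ U : ℂ → ℝ} {l M r : ℝ}

/-- `∫ φ ρ w^a U^(2j)` -/
def Zi (φ ρ U : ℂ → ℝ) (l : ℝ) (a j : ℕ) : ℝ :=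
  ∫ z, φ z * (ρ z * (gw (kk ρ l) U z ^ a * U z ^ (2 * j)))

/-- `l ∫ φ w^a U^e ∇w ∇U` -/
def Xi (φ ρ U : ℂ → ℝ) (l : ℝ) (a e : ℕ) : ℝ :=
  ∫ z, φ z * (l * (gw (kk ρ l) U z ^ a * U z ^ e * gD (kk ρ l) U z))

/-- `∫_S ρ w^k` -/
def Ji (S : Set ℂ) (ρ U : ℂ → ℝ) (l : ℝ) (k : ℕ) : ℝ := ∫ z in S, ρ z * gw (kk ρ l) U z ^ k

lemma tfi (hφ : TF B φ) {G : ℂ → ℝ} (hG : ContinuousOn G B) :
    Integrable (fun z => φ z * G z) :=
  rint hφ.2.1 (hφ.1.continuous.continuousOn.mul (hG.mono hφ.2.2)) fun z hz => by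
    rw [image_eq_zero_of_notMem_tsupport hz, zero_mul]

lemma int_le_set {S : Set ℂ} (hS : MeasurableSet S) {F G : ℂ → ℝ} (iF : Integrable F)
    (iG : IntegrableOn G S) (h0 : ∀ z, z ∉ S → F z = 0) (h : ∀ z ∈ S, F z ≤ G z) :
    ∫ z, F z ≤ ∫ z in S, G z := by
  rw [← setIntegral_eq_integral_of_forall_compl_eq_zero h0]
  exact setIntegral_mono_on iF.integrableOn iG hS h

lemma int_abs_le_set {S : Set ℂ} (hS : MeasurableSet S) {F G : ℂ → ℝ} (iF : Integrable F)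
    (iG : IntegrableOn G S) (h0 : ∀ z, z ∉ S → F z = 0) (h : ∀ z ∈ S, |F z| ≤ G z) :
    |∫ z, F z| ≤ ∫ z in S, G z :=
  (abs_integral_le_integral_abs).trans
    (int_le_set hS iF.abs iG (fun z hz => by rw [h0 z hz, abs_zero]) h)

lemma Cst.so (H : Cst B ρ φ M r) (sU : ContDiffOn ℝ ∞ U B)
    (heq : ∀ z ∈ B, kk ρ l z * (dX (dX U) z + dY (dY U) z) = - U z) : So B (kk ρ l) U :=
  ⟨H.op, contDiffOn_const.mul (H.sr.inv fun z hz => (H.pos z hz).ne'), sU, heq⟩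

lemma Cst.j0 (H : Cst B ρ φ M r) (hl : 0 < l) (k : ℕ) : 0 ≤ Ji (tsupport φ) ρ U l k := by
  refine setIntegral_nonneg H.tf.2.1.isClosed.measurableSet fun z hz => ?_
  have hzB := H.tf.2.2 hz
  exact mul_nonneg (H.pos z hzB).le (pow_nonneg (H.gw0 hl hzB) k)

lemma Cst.ji (H : Cst B ρ φ M r) (so : So B (kk ρ l) U) (k : ℕ) :
    IntegrableOn (fun z => ρ z * gw (kk ρ l) U z ^ k) (tsupport φ) :=
  ((H.sr.continuousOn.mono H.tf.2.2).mul
    ((so.sgw.continuousOn.mono H.tf.2.2).pow k)).integrableOn_compact H.tf.2.1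

lemma fd_out {z : ℂ} (hz : z ∉ tsupport φ) (v : ℂ) : fderiv ℝ φ z v = 0 := by
  rw [fderiv_of_notMem_tsupport ℝ hz]; rfl

lemma comb3 {F1 F2 F3 : ℂ → ℝ} (i1 : Integrable F1) (i2 : Integrable F2) (i3 : Integrable F3)
    (a b c : ℝ) : ∫ z, (a * F1 z + b * F2 z + c * F3 z) =
      a * (∫ z, F1 z) + b * (∫ z, F2 z) + c * ∫ z, F3 z := by
  have e1 : ∫ z, (a * F1 z + b * F2 z + c * F3 z) = (∫ z, (a * F1 z + b * F2 z)) + ∫ z, c * F3 z :=
    integral_add ((i1.const_mul a).add (i2.const_mul b)) (i3.const_mul c)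
  have e2 : ∫ z, (a * F1 z + b * F2 z) = (∫ z, a * F1 z) + ∫ z, b * F2 z :=
    integral_add (i1.const_mul a) (i2.const_mul b)
  rw [e1, e2, integral_const_mul, integral_const_mul, integral_const_mul]

/-- the first inequality -/
lemma Cst.i1 (H : Cst B ρ φ M r) (hl : 0 < l) (so : So B (kk ρ l) U) (a j : ℕ) :
    |(2 * j + 1 : ℝ) * Zi φ ρ U l (a + 1) j - (2 * j + 2 : ℝ) * Zi φ ρ U l a (j + 1) +
      (a : ℝ) * Xi φ ρ U l (a - 1) (2 * j + 1)| ≤
      M * r * √l * Ji (tsupport φ) ρ U l (a + j + 1) := by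
  obtain ⟨iA, iB, eA⟩ := div0 H.op H.tf ((so.sfb a j).mul so.sX) 1
  obtain ⟨iC, iD, eC⟩ := div0 H.op H.tf ((so.sfb a j).mul so.sY) I
  have cρ := H.sr.continuousOn
  have cw := so.sgw.continuousOn
  have cU := so.sm.continuousOn
  have cD := so.sgD.continuousOn
  have j1 : Integrable (fun z => φ z * (ρ z * (gw (kk ρ l) U z ^ (a + 1) * U z ^ (2 * j)))) :=
    tfi H.tf (cρ.mul ((cw.pow (a + 1)).mul (cU.pow (2 * j))))
  have j2 : Integrable (fun z => φ z * (ρ z * (gw (kk ρ l) U z ^ a * U z ^ (2 * (j + 1))))) :=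
    tfi H.tf (cρ.mul ((cw.pow a).mul (cU.pow (2 * (j + 1)))))
  have j3 : Integrable (fun z => φ z * (l * (gw (kk ρ l) U z ^ (a - 1) * U z ^ (2 * j + 1) *
      gD (kk ρ l) U z))) := tfi H.tf ((continuousOn_const (c := l)).mul
    (((cw.pow (a - 1)).mul (cU.pow (2 * j + 1))).mul cD))
  have T : (2 * j + 1 : ℝ) * Zi φ ρ U l (a + 1) j - (2 * j + 2 : ℝ) * Zi φ ρ U l a (j + 1) +
      (a : ℝ) * Xi φ ρ U l (a - 1) (2 * j + 1) =
      l * ((∫ z, φ z * fderiv ℝ (fun w => fb (kk ρ l) U a j w * dX U w) z 1) +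
        ∫ z, φ z * fderiv ℝ (fun w => fb (kk ρ l) U a j w * dY U w) z I) := by
    have e : ∀ z, l * (φ z * fderiv ℝ (fun w => fb (kk ρ l) U a j w * dX U w) z 1 +
        φ z * fderiv ℝ (fun w => fb (kk ρ l) U a j w * dY U w) z I) =
        (2 * j + 1 : ℝ) * (φ z * (ρ z * (gw (kk ρ l) U z ^ (a + 1) * U z ^ (2 * j)))) -
        (2 * j + 2 : ℝ) * (φ z * (ρ z * (gw (kk ρ l) U z ^ a * U z ^ (2 * (j + 1))))) +
        (a : ℝ) * (φ z * (l * (gw (kk ρ l) U z ^ (a - 1) * U z ^ (2 * j + 1) *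
          gD (kk ρ l) U z))) := by
      intro z
      by_cases hz : z ∈ B
      · have := so.divb a j hz (H.kr hz)
        linear_combination (φ z) * this
      · have : φ z = 0 := image_eq_zero_of_notMem_tsupport fun h => hz (H.tf.2.2 h)
        rw [this]; ring
    have e0 := comb3 j1 j2 j3 (2 * j + 1 : ℝ) (-(2 * j + 2 : ℝ)) (a : ℝ)
    rw [← integral_add iA iC, ← integral_const_mul, integral_congr_ae (ae_of_all _ e)]
    refine (Eq.trans ?_ e0.symm).trans (integral_congr_ae (ae_of_all _ fun z => ?_))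
    · unfold Zi Xi
      ring
    · show _ = _
      ring
  have iB' : Integrable (fun z => fderiv ℝ φ z 1 * (fb (kk ρ l) U a j z * dX U z)) := iB
  have iD' : Integrable (fun z => fderiv ℝ φ z I * (fb (kk ρ l) U a j z * dY U z)) := iD
  have eA' : ∫ z, φ z * fderiv ℝ (fun w => fb (kk ρ l) U a j w * dX U w) z 1 =
    -∫ z, fderiv ℝ φ z 1 * (fb (kk ρ l) U a j z * dX U z) := eA
  have eC' : ∫ z, φ z * fderiv ℝ (fun w => fb (kk ρ l) U a j w * dY U w) z I =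
    -∫ z, fderiv ℝ φ z I * (fb (kk ρ l) U a j z * dY U z) := eC
  rw [T, eA', eC', ← neg_add, mul_neg, abs_neg, ← integral_add iB' iD', ← integral_const_mul]
  have i5 : Integrable (fun z => l * (fderiv ℝ φ z 1 * (fb (kk ρ l) U a j z * dX U z) +
      fderiv ℝ φ z I * (fb (kk ρ l) U a j z * dY U z))) := (iB'.add iD').const_mul l
  have bd := int_abs_le_set (S := tsupport φ) H.tf.2.1.isClosed.measurableSet
    i5 ((H.ji so (a + j + 1)).const_mul (M * r * √l))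
    (fun z hz => by
      show l * (fderiv ℝ φ z 1 * (fb (kk ρ l) U a j z * dX U z) +
        fderiv ℝ φ z I * (fb (kk ρ l) U a j z * dY U z)) = 0
      rw [fd_out hz, fd_out hz]; ring)
    (fun z hz => H.p1 hl a j hz)
  exact bd.trans (le_of_eq (integral_const_mul _ _))

/-- the second inequality -/
lemma Cst.i2 (H : Cst B ρ φ M r) (hl : 0 < l) (so : So B (kk ρ l) U) (a j : ℕ) :
    (2 * j : ℝ) * Xi φ ρ U l (a + 1) (2 * j - 1) -
      (M + M ^ 2) * r ^ 2 * l * Ji (tsupport φ) ρ U l (a + j + 2) ≤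
      (2 * j + 4 : ℝ) * Xi φ ρ U l a (2 * j + 1) := by
  obtain ⟨iA, iB, eA⟩ := div0 H.op H.tf ((so.sfc a j).mul so.swX) 1
  obtain ⟨iC, iD, eC⟩ := div0 H.op H.tf ((so.sfc a j).mul so.swY) I
  have cρ := H.sr.continuousOn
  have cw := so.sgw.continuousOn
  have cU := so.sm.continuousOn
  have cD := so.sgD.continuousOn
  have cN := so.sgN.continuousOn
  have cG := so.sgG.continuousOn
  have cs := so.sgs.continuousOn
  obtain ⟨P, hP⟩ : ∃ P : ℂ → ℝ, P = fun z => l * ((2 * gw (kk ρ l) U z ^ a +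
    (a : ℝ) * gs (kk ρ l) U z * gw (kk ρ l) U z ^ (a - 1)) * U z ^ (2 * j) * gN (kk ρ l) U z +
      (gw (kk ρ l) U z ^ a * U z ^ (2 * j)) * gG (kk ρ l) U z) := ⟨_, rfl⟩
  have cP : ContinuousOn P B := by
    rw [hP]
    exact continuousOn_const.mul (((((continuousOn_const.mul (cw.pow a)).add
      ((continuousOn_const.mul cs).mul (cw.pow (a - 1)))).mul (cU.pow (2 * j))).mul cN).add
        (((cw.pow a).mul (cU.pow (2 * j))).mul cG))
  have j1 : Integrable (fun z => φ z * P z) := tfi H.tf cP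
  have j2 : Integrable (fun z => φ z * (l * (gw (kk ρ l) U z ^ (a + 1) * U z ^ (2 * j - 1) *
      gD (kk ρ l) U z))) := tfi H.tf ((continuousOn_const (c := l)).mul
    (((cw.pow (a + 1)).mul (cU.pow (2 * j - 1))).mul cD))
  have j3 : Integrable (fun z => φ z * (l * (gw (kk ρ l) U z ^ a * U z ^ (2 * j + 1) *
      gD (kk ρ l) U z))) := tfi H.tf ((continuousOn_const (c := l)).mul
    (((cw.pow a).mul (cU.pow (2 * j + 1))).mul cD))
  have T : (∫ z, φ z * P z) + (2 * j : ℝ) * Xi φ ρ U l (a + 1) (2 * j - 1) -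
      (2 * j + 4 : ℝ) * Xi φ ρ U l a (2 * j + 1) =
      l * ((∫ z, φ z * fderiv ℝ (fun w => fc (kk ρ l) U a j w * dX (gw (kk ρ l) U) w) z 1) +
        ∫ z, φ z * fderiv ℝ (fun w => fc (kk ρ l) U a j w * dY (gw (kk ρ l) U) w) z I) := by
    have e : ∀ z, l * (φ z * fderiv ℝ (fun w => fc (kk ρ l) U a j w * dX (gw (kk ρ l) U) w) z 1 +
        φ z * fderiv ℝ (fun w => fc (kk ρ l) U a j w * dY (gw (kk ρ l) U) w) z I) =
        φ z * P z +
        (2 * j : ℝ) * (φ z * (l * (gw (kk ρ l) U z ^ (a + 1) * U z ^ (2 * j - 1) *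
          gD (kk ρ l) U z))) -
        (2 * j + 4 : ℝ) * (φ z * (l * (gw (kk ρ l) U z ^ a * U z ^ (2 * j + 1) *
          gD (kk ρ l) U z))) := by
      intro z
      by_cases hz : z ∈ B
      · have := so.divc a j hz
        rw [hP]
        linear_combination (l * φ z) * this
      · have : φ z = 0 := image_eq_zero_of_notMem_tsupport fun h => hz (H.tf.2.2 h)
        rw [this]; ring
    have e0 := comb3 j1 j2 j3 1 (2 * j : ℝ) (-(2 * j + 4 : ℝ))
    rw [← integral_add iA iC, ← integral_const_mul, integral_congr_ae (ae_of_all _ e)]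
    refine (Eq.trans ?_ e0.symm).trans (integral_congr_ae (ae_of_all _ fun z => ?_))
    · unfold Xi
      ring
    · show _ = _
      ring
  have iB' : Integrable (fun z => fderiv ℝ φ z 1 * (fc (kk ρ l) U a j z *
    dX (gw (kk ρ l) U) z)) := iB
  have iD' : Integrable (fun z => fderiv ℝ φ z I * (fc (kk ρ l) U a j z *
    dY (gw (kk ρ l) U) z)) := iD
  have eA' : ∫ z, φ z * fderiv ℝ (fun w => fc (kk ρ l) U a j w * dX (gw (kk ρ l) U) w) z 1 =
    -∫ z, fderiv ℝ φ z 1 * (fc (kk ρ l) U a j z * dX (gw (kk ρ l) U) z) := eA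
  have eC' : ∫ z, φ z * fderiv ℝ (fun w => fc (kk ρ l) U a j w * dY (gw (kk ρ l) U) w) z I =
    -∫ z, fderiv ℝ φ z I * (fc (kk ρ l) U a j z * dY (gw (kk ρ l) U) z) := eC
  rw [eA', eC', ← neg_add, mul_neg, ← integral_add iB' iD', ← integral_const_mul] at T
  have i5 : Integrable (fun z => l * (fderiv ℝ φ z 1 * (fc (kk ρ l) U a j z *
    dX (gw (kk ρ l) U) z) + fderiv ℝ φ z I * (fc (kk ρ l) U a j z *
    dY (gw (kk ρ l) U) z))) := (iB'.add iD').const_mul l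
  have bd := int_le_set (S := tsupport φ) H.tf.2.1.isClosed.measurableSet
    (j1.add i5).neg ((H.ji so (a + j + 2)).const_mul ((M + M ^ 2) * r ^ 2 * l))
    (fun z hz => by
      show -(φ z * P z + l * (fderiv ℝ φ z 1 * (fc (kk ρ l) U a j z * dX (gw (kk ρ l) U) z) +
        fderiv ℝ φ z I * (fc (kk ρ l) U a j z * dY (gw (kk ρ l) U) z))) = 0
      rw [fd_out hz, fd_out hz, image_eq_zero_of_notMem_tsupport hz]; ring)
    (fun z hz => by
      have := H.p2 (U := U) hl a j hz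
      show -(φ z * P z + l * (fderiv ℝ φ z 1 * (fc (kk ρ l) U a j z * dX (gw (kk ρ l) U) z) +
        fderiv ℝ φ z I * (fc (kk ρ l) U a j z * dY (gw (kk ρ l) U) z))) ≤ _
      rw [hP]
      linarith)
  have e6 : ∫ z, (-((fun z => φ z * P z) + fun z => l * (fderiv ℝ φ z 1 *
      (fc (kk ρ l) U a j z * dX (gw (kk ρ l) U) z) + fderiv ℝ φ z I *
      (fc (kk ρ l) U a j z * dY (gw (kk ρ l) U) z)))) z =
      -((∫ z, φ z * P z) + ∫ z, l * (fderiv ℝ φ z 1 * (fc (kk ρ l) U a j z *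
    dX (gw (kk ρ l) U) z) + fderiv ℝ φ z I * (fc (kk ρ l) U a j z *
    dY (gw (kk ρ l) U) z))) := by
    rw [← integral_add j1 i5, ← integral_neg]
    rfl
  have e7 : ∫ z in tsupport φ, (M + M ^ 2) * r ^ 2 * l * (ρ z * gw (kk ρ l) U z ^ (a + j + 2)) =
      (M + M ^ 2) * r ^ 2 * l * Ji (tsupport φ) ρ U l (a + j + 2) := integral_const_mul _ _
  rw [e6, e7] at bd
  linarith

/-- lower bounds for the mixed terms -/
lemma Cst.xlow (H : Cst B ρ φ M r) (hl : 0 < l) (so : So B (kk ρ l) U) (j : ℕ) : ∀ a : ℕ,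
    -((M + M ^ 2) * r ^ 2 * l * Ji (tsupport φ) ρ U l (a + j + 2)) ≤
      Xi φ ρ U l a (2 * j + 1) := by
  have M0 := H.M0
  have r0 := H.r0
  induction j with
  | zero =>
    intro a
    have h1 := H.i2 hl so a 0
    have h2 := H.j0 (U := U) hl (a + 0 + 2)
    have h3 : 0 ≤ (M + M ^ 2) * r ^ 2 * l * Ji (tsupport φ) ρ U l (a + 0 + 2) := by positivity
    push_cast at h1
    linarith
  | succ j ih =>
    intro a
    have h1 := H.i2 hl so a (j + 1)
    have h4 := ih (a + 1)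
    have h2 := H.j0 (U := U) hl (a + (j + 1) + 2)
    have e1 : a + 1 + j + 2 = a + (j + 1) + 2 := by omega
    have e2 : 2 * (j + 1) - 1 = 2 * j + 1 := by omega
    rw [e1] at h4
    rw [e2] at h1
    obtain ⟨E, hE⟩ : ∃ E, E = (M + M ^ 2) * r ^ 2 * l * Ji (tsupport φ) ρ U l (a + (j + 1) + 2) :=
      ⟨_, rfl⟩
    have E0 : 0 ≤ E := by rw [hE]; positivity
    rw [← hE] at h1 h4 ⊢
    push_cast at h1
    have h5 := mul_le_mul_of_nonneg_left h4 (by positivity : (0 : ℝ) ≤ 2 * ((j : ℝ) + 1))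
    have j0 : (0 : ℝ) ≤ j := Nat.cast_nonneg j
    have h6 : (2 * ((j : ℝ) + 1) + 4) * (-E) ≤
        (2 * ((j : ℝ) + 1) + 4) * Xi φ ρ U l a (2 * (j + 1) + 1) := by
      nlinarith
    exact le_of_mul_le_mul_left h6 (by positivity)

/-- one step for the even moments -/
lemma Cst.zstep (H : Cst B ρ φ M r) (hl : 0 < l) (hl1 : l ≤ 1) (so : So B (kk ρ l) U) (a j : ℕ) :
    (2 * j + 1 : ℝ) / (2 * j + 2) * Zi φ ρ U l (a + 1) j ≤ Zi φ ρ U l a (j + 1) +
      (a + 1 : ℝ) * ((M * r + (M + M ^ 2) * r ^ 2) * √l * Ji (tsupport φ) ρ U l (a + j + 1)) := by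
  have M0 := H.M0
  have r0 := H.r0
  have h1 := (abs_le.1 (H.i1 hl so a j)).2
  have J0 := H.j0 (U := U) hl (a + j + 1)
  have lg : l ≤ √l := by
    apply Real.le_sqrt_of_sq_le
    nlinarith
  have g0 : 0 ≤ √l := Real.sqrt_nonneg l
  obtain ⟨J, hJ⟩ : ∃ J, J = Ji (tsupport φ) ρ U l (a + j + 1) := ⟨_, rfl⟩
  rw [← hJ] at h1 J0 ⊢
  have h2 : -((a : ℝ) * ((M + M ^ 2) * r ^ 2 * √l * J)) ≤
      (a : ℝ) * Xi φ ρ U l (a - 1) (2 * j + 1) := by
    rcases Nat.eq_zero_or_pos a with h | h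
    · subst h; simp
    · have h3 := H.xlow hl so j (a - 1)
      have e : a - 1 + j + 2 = a + j + 1 := by omega
      rw [e, ← hJ] at h3
      have h4 : (M + M ^ 2) * r ^ 2 * l * J ≤ (M + M ^ 2) * r ^ 2 * √l * J :=
        mul_le_mul_of_nonneg_right (mul_le_mul_of_nonneg_left lg (by positivity)) J0
      have h5 : -((M + M ^ 2) * r ^ 2 * √l * J) ≤ Xi φ ρ U l (a - 1) (2 * j + 1) := by linarith
      have := mul_le_mul_of_nonneg_left h5 (Nat.cast_nonneg a : (0 : ℝ) ≤ a)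
      linarith
  have j0 : (0 : ℝ) ≤ j := Nat.cast_nonneg j
  have a0 : (0 : ℝ) ≤ a := Nat.cast_nonneg a
  have h6 : (2 * j + 1 : ℝ) * Zi φ ρ U l (a + 1) j ≤ (2 * j + 2 : ℝ) * Zi φ ρ U l a (j + 1) +
      (a + 1 : ℝ) * ((M * r + (M + M ^ 2) * r ^ 2) * √l * J) := by
    have h7 : 0 ≤ (a : ℝ) * (M * r * √l * J) := by positivity
    have h8 : 0 ≤ (M + M ^ 2) * r ^ 2 * √l * J := by positivity
    nlinarith
  have e : (2 * j + 1 : ℝ) / (2 * j + 2) * Zi φ ρ U l (a + 1) j =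
      ((2 * j + 1 : ℝ) * Zi φ ρ U l (a + 1) j) / (2 * j + 2) := by ring
  rw [e, div_le_iff₀ (by positivity)]
  refine h6.trans ?_
  have h9 : 0 ≤ (a + 1 : ℝ) * ((M * r + (M + M ^ 2) * r ^ 2) * √l * J) := by positivity
  nlinarith

/-- **The even moments in a chart.** -/
theorem Cst.zmain (H : Cst B ρ φ M r) (hl : 0 < l) (hl1 : l ≤ 1) (so : So B (kk ρ l) U) (j : ℕ) :
    ∀ a : ℕ, (Nat.centralBinom j : ℝ) / 4 ^ j * Zi φ ρ U l (a + j) 0 ≤ Zi φ ρ U l a j +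
      (j * (a + j) : ℝ) * ((M * r + (M + M ^ 2) * r ^ 2) * √l *
        Ji (tsupport φ) ρ U l (a + j)) := by
  have M0 := H.M0
  have r0 := H.r0
  have g0 : 0 ≤ √l := Real.sqrt_nonneg l
  induction j with
  | zero => intro a; simp
  | succ j ih =>
    intro a
    have h1 := ih (a + 1)
    have h2 := H.zstep hl hl1 so a j
    have e1 : a + 1 + j = a + (j + 1) := by omega
    have e2 : a + j + 1 = a + (j + 1) := by omega
    rw [e1] at h1
    rw [e2] at h2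
    have J0 := H.j0 (U := U) hl (a + (j + 1))
    obtain ⟨E, hE⟩ : ∃ E, E = (M * r + (M + M ^ 2) * r ^ 2) * √l *
      Ji (tsupport φ) ρ U l (a + (j + 1)) := ⟨_, rfl⟩
    have E0 : 0 ≤ E := by rw [hE]; positivity
    rw [← hE] at h1 h2 ⊢
    have j0 : (0 : ℝ) ≤ j := Nat.cast_nonneg j
    have a0 : (0 : ℝ) ≤ a := Nat.cast_nonneg a
    have e3 : (Nat.centralBinom (j + 1) : ℝ) / 4 ^ (j + 1) =
        (2 * j + 1 : ℝ) / (2 * j + 2) * ((Nat.centralBinom j : ℝ) / 4 ^ j) := by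
      have h3 : ((j + 1 : ℕ) : ℝ) * (Nat.centralBinom (j + 1) : ℝ) =
          2 * (2 * (j : ℝ) + 1) * (Nat.centralBinom j : ℝ) := by
        exact_mod_cast Nat.succ_mul_centralBinom_succ j
      push_cast at h3
      rw [pow_succ]
      field_simp
      linarith
    rw [e3]
    have q : (2 * j + 1 : ℝ) / (2 * j + 2) ≤ 1 := by
      rw [div_le_one (by positivity)]; linarith
    have q0 : 0 ≤ (2 * j + 1 : ℝ) / (2 * j + 2) := by positivity
    have h4 := mul_le_mul_of_nonneg_left h1 q0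
    have h5 : (2 * j + 1 : ℝ) / (2 * j + 2) * ((j * ((a + 1 : ℕ) + j) : ℝ) * E) ≤
        (j * ((a + 1 : ℕ) + j) : ℝ) * E := mul_le_of_le_one_left (by positivity) q
    push_cast at h4 h5 ⊢
    nlinarith

end

end Pool.Agent.Helper32.EV
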