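import Pool.Agent.Helper32.EV.E

/-!
Project EV (helper32): the even moments on a surface.
-/

set_option autoImplicit false
open MeasureTheory Filter Topology Complex
open scoped ContDiff ENNReal

namespace Pool.Agent.Helper32.EV

open Pool.Agent.W745.RW Pool.Agent.TH421.AC Pool.Agent.N252.TV

noncomputable section

variable {X : Type*} [TopologicalSpace X] [MeasurableSpace X] {vol : Measure X}
variable {A : ℕ → IsoChart X vol} {u E : X → ℝ} {lam : ℝ}

/-- the solution in a chart -/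
lemma chart_so (hl : 1 ≤ lam) (hu : IsEigen A lam u) (i : ℕ) {φ : ℂ → ℝ} {M r : ℝ}
    (H : Cst (A i).c.target (A i).ρ φ M r) :
    So (A i).c.target (kk (A i).ρ lam⁻¹) (u ∘ (A i).c.symm) := by
  refine H.so (hu.smooth i) fun z hz => ?_
  have h1 := hu.eq i z hz
  have l0 : lam ≠ 0 := by positivity
  have r0 := ((A i).pos z hz).ne'
  have e : dX (dX (u ∘ (A i).c.symm)) z + dY (dY (u ∘ (A i).c.symm)) z =
      lapl (u ∘ (A i).c.symm) z := rfl
  rw [e]
  have h2 : lapl (u ∘ (A i).c.symm) z = -(lam * ((A i).ρ z * (u ∘ (A i).c.symm) z)) := by linarith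
  rw [h2]
  unfold kk
  field_simp

/-- the energy in a chart -/
lemma chart_w (hl : 1 ≤ lam) (hE : IsEn A lam u E) (i : ℕ) {z : ℂ} (hz : z ∈ (A i).c.target) :
    u ((A i).c.symm z) ^ 2 + E ((A i).c.symm z) =
      gw (kk (A i).ρ lam⁻¹) (u ∘ (A i).c.symm) z := by
  have l0 : lam ≠ 0 := by positivity
  have r0 := ((A i).pos z hz).ne'
  rw [hE.eq i z hz]
  unfold gw kk
  show u ((A i).c.symm z) ^ 2 + _ = u ((A i).c.symm z) ^ 2 + _
  congr 1
  field_simp

variable [BorelSpace X]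

/-- integrals of nonnegative functions in a chart -/
lemma j_le (C : IsoChart X vol) {F : X → ℝ} (iF : Integrable F vol) (F0 : ∀ x, 0 ≤ F x)
    {S : Set ℂ} (hS : S ⊆ C.c.target) {G : ℂ → ℝ} (mS : MeasurableSet S)
    (hG : ∀ z ∈ C.c.target, F (C.c.symm z) = G z) :
    ∫ z in S, C.ρ z * G z ≤ ∫ x, F x ∂vol := by
  have i1 := C.itg iF.integrableOn
  have e1 := C.int (iF.integrableOn (s := C.c.source)).aestronglyMeasurable
  have i2 : IntegrableOn (fun z => C.ρ z * F (C.c.symm z)) C.c.target := by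
    have h := (integrable_withDensity_iff_integrable_smul₀' C.aer
      (ae_of_all _ fun z => ENNReal.ofReal_lt_top)).1 i1
    refine (integrableOn_congr_fun (fun z hz => ?_) C.c.open_target.measurableSet).1 h
    show (ENNReal.ofReal (C.ρ z)).toReal • F (C.c.symm z) = _
    rw [ENNReal.toReal_ofReal (C.pos z hz).le, smul_eq_mul]
  calc ∫ z in S, C.ρ z * G z = ∫ z in S, C.ρ z * F (C.c.symm z) :=
        setIntegral_congr_fun mS fun z hz => by rw [hG z (hS hz)]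
    _ ≤ ∫ z in C.c.target, C.ρ z * F (C.c.symm z) := by
        refine setIntegral_mono_set i2 ?_ hS.eventuallyLE
        refine (ae_restrict_iff' C.c.open_target.measurableSet).2 (ae_of_all _ fun z hz => ?_)
        exact mul_nonneg (C.pos z hz).le (F0 _)
    _ = ∫ x in C.c.source, F x ∂vol := by rw [e1, C.intm]
    _ ≤ ∫ x, F x ∂vol := setIntegral_le_integral iF (ae_of_all _ F0)

variable {s : Finset ℕ} {φ : ℕ → ℂ → ℝ} {Φ : X → ℝ}

/-- weighted moments as sums over the charts -/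
lemma te_mom (T : IsTe A s φ Φ) (hl : 1 ≤ lam) (hu : IsEigen A lam u) (hE : IsEn A lam u E)
    (a j : ℕ) : Integrable (fun x => Φ x * ((u x ^ 2 + E x) ^ a * u x ^ (2 * j))) vol ∧
      ∫ x, Φ x * ((u x ^ 2 + E x) ^ a * u x ^ (2 * j)) ∂vol =
        ∑ i ∈ s, Zi (φ i) (A i).ρ (u ∘ (A i).c.symm) lam⁻¹ a j := by
  have mF : Measurable (fun x => (u x ^ 2 + E x) ^ a * u x ^ (2 * j)) :=
    (((hu.meas.pow_const 2).add hE.meas).pow_const a).mul (hu.meas.pow_const _)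
  have cU : ∀ i, ContinuousOn (u ∘ (A i).c.symm) (A i).c.target := fun i =>
    (hu.smooth i).continuousOn
  have cw : ∀ i, ContinuousOn (gw (kk (A i).ρ lam⁻¹) (u ∘ (A i).c.symm)) (A i).c.target := by
    intro i
    have h1 : ContinuousOn (dX (u ∘ (A i).c.symm)) (A i).c.target :=
      (rsd (A i).c.open_target (hu.smooth i) 1).continuousOn
    have h2 : ContinuousOn (dY (u ∘ (A i).c.symm)) (A i).c.target :=
      (rsd (A i).c.open_target (hu.smooth i) I).continuousOn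
    exact ((cU i).pow 2).add ((continuousOn_const.mul ((A i).smooth.continuousOn.inv₀
      fun z hz => ((A i).pos z hz).ne')).mul ((h1.pow 2).add (h2.pow 2)))
  have ae : ∀ i, ∀ᵐ z ∂(A i).m, z ∈ (A i).c.target := by
    intro i
    have h1 : ∀ᵐ z ∂(volume.restrict (A i).c.target), z ∈ (A i).c.target :=
      ae_restrict_mem (A i).c.open_target.measurableSet
    exact (withDensity_absolutelyContinuous _ _).ae_le h1
  have e1 : ∀ i, ∀ᵐ z ∂(A i).m, φ i z * (gw (kk (A i).ρ lam⁻¹) (u ∘ (A i).c.symm) z ^ a *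
      (u ∘ (A i).c.symm) z ^ (2 * j)) = φ i z * ((u ((A i).c.symm z) ^ 2 +
        E ((A i).c.symm z)) ^ a * u ((A i).c.symm z) ^ (2 * j)) := by
    intro i
    filter_upwards [ae i] with z hz
    rw [chart_w hl hE i hz]
    rfl
  have i1 : ∀ i ∈ s, Integrable (fun z => φ i z * (gw (kk (A i).ρ lam⁻¹)
      (u ∘ (A i).c.symm) z ^ a * (u ∘ (A i).c.symm) z ^ (2 * j))) (A i).m := fun i hi =>
    te_cont (A i) (T.tf i hi) (((cw i).pow a).mul ((cU i).pow (2 * j)))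
  have h3 := T.int (F := fun x => (u x ^ 2 + E x) ^ a * u x ^ (2 * j)) mF
    fun i hi => (i1 i hi).congr (e1 i)
  refine ⟨h3.1, h3.2.trans (Finset.sum_congr rfl fun i hi => ?_)⟩
  rw [← integral_congr_ae (e1 i), (A i).intt (T.tf i hi)]
  unfold Zi
  congr 1
  funext z
  ring

omit [BorelSpace X] in
lemma te_E0 {t : Finset ℕ} {ψ : ℕ → ℂ → ℝ} (T1 : IsTe A t ψ fun _ => (1 : ℝ)) (hl : 1 ≤ lam)
    (hE : IsEn A lam u E) (x : X) : 0 ≤ E x := by
  have := T1.nnE (by linarith : 0 < lam) hE x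
  simpa using this

/-- moments without weight -/
lemma te_mom1 {t : Finset ℕ} {ψ : ℕ → ℂ → ℝ} (T1 : IsTe A t ψ fun _ => (1 : ℝ)) (hl : 1 ≤ lam)
    (hu : IsEigen A lam u) (hE : IsEn A lam u E) (a j : ℕ) :
    Integrable (fun x => (u x ^ 2 + E x) ^ a * u x ^ (2 * j)) vol := by
  have := (te_mom T1 hl hu hE a j).1
  simpa using this

/-- **The even moments on a surface.** -/
theorem surf_main {t : Finset ℕ} {ψ : ℕ → ℂ → ℝ} (T1 : IsTe A t ψ fun _ => (1 : ℝ))
    (T : IsTe A s φ Φ) : ∃ C : ℝ, 0 ≤ C ∧ ∀ (lam : ℝ) (u E : X → ℝ), 1 ≤ lam →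
      IsEigen A lam u → IsEn A lam u E →
      (∀ k : ℕ, (Nat.centralBinom k : ℝ) / 4 ^ k * ∫ x, Φ x * (u x ^ 2 + E x) ^ k ∂vol ≤
        (∫ x, Φ x * u x ^ (2 * k) ∂vol) +
          k ^ 2 * (C * (√lam)⁻¹ * ∫ x, (u x ^ 2 + E x) ^ k ∂vol)) ∧
      2 * (∫ x, Φ x * u x ^ 2 ∂vol) ≤ (∫ x, Φ x * (u x ^ 2 + E x) ∂vol) +
        C * (√lam)⁻¹ * ∫ x, (u x ^ 2 + E x) ∂vol := by
  have h1 : ∀ i ∈ s, ∃ M r : ℝ, Cst (A i).c.target (A i).ρ (φ i) M r := fun i hi =>
    exists_cst (A i).c.open_target (A i).smooth (A i).pos (T.tf i hi) (T.nn i hi)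
  choose! M r hc using h1
  obtain ⟨D, hD⟩ : ∃ D : ℕ → ℝ, D = fun i => M i * r i + (M i + M i ^ 2) * r i ^ 2 := ⟨_, rfl⟩
  have D0 : ∀ i ∈ s, 0 ≤ D i := fun i hi => by
    have := (hc i hi).M0
    have := (hc i hi).r0
    rw [hD]; positivity
  have D1 : ∀ i ∈ s, M i * r i ≤ D i := fun i hi => by
    have := (hc i hi).M0
    have := (hc i hi).r0
    rw [hD]
    have : 0 ≤ (M i + M i ^ 2) * r i ^ 2 := by positivity
    show M i * r i ≤ M i * r i + (M i + M i ^ 2) * r i ^ 2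
    linarith
  refine ⟨∑ i ∈ s, D i, Finset.sum_nonneg D0, fun lam u E hl hu hE => ?_⟩
  have l0 : 0 < lam⁻¹ := by positivity
  have l1 : lam⁻¹ ≤ 1 := inv_le_one_of_one_le₀ hl
  have sq : √(lam⁻¹) = (√lam)⁻¹ := Real.sqrt_inv lam
  have g0 : 0 ≤ (√lam)⁻¹ := by positivity
  have so : ∀ i ∈ s, So (A i).c.target (kk (A i).ρ lam⁻¹) (u ∘ (A i).c.symm) := fun i hi =>
    chart_so hl hu i (hc i hi)
  have w0 : ∀ x, 0 ≤ u x ^ 2 + E x := fun x => add_nonneg (sq_nonneg _) (te_E0 T1 hl hE x)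
  have iw : ∀ k : ℕ, Integrable (fun x => (u x ^ 2 + E x) ^ k) vol := fun k => by
    have := te_mom1 T1 hl hu hE k 0
    simpa using this
  have J : ∀ i ∈ s, ∀ k : ℕ, Ji (tsupport (φ i)) (A i).ρ (u ∘ (A i).c.symm) lam⁻¹ k ≤
      ∫ x, (u x ^ 2 + E x) ^ k ∂vol := by
    intro i hi k
    exact j_le (A i) (iw k) (fun x => pow_nonneg (w0 x) k) (T.tf i hi).2.2
      (G := fun z => gw (kk (A i).ρ lam⁻¹) (u ∘ (A i).c.symm) z ^ k)
      (T.tf i hi).2.1.isClosed.measurableSet fun z hz => by rw [chart_w hl hE i hz]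
  refine ⟨fun k => ?_, ?_⟩
  · have e1 : ∫ x, Φ x * (u x ^ 2 + E x) ^ k ∂vol =
        ∑ i ∈ s, Zi (φ i) (A i).ρ (u ∘ (A i).c.symm) lam⁻¹ k 0 := by
      have := (te_mom T hl hu hE k 0).2
      simpa using this
    have e2 : ∫ x, Φ x * u x ^ (2 * k) ∂vol =
        ∑ i ∈ s, Zi (φ i) (A i).ρ (u ∘ (A i).c.symm) lam⁻¹ 0 k := by
      have := (te_mom T hl hu hE 0 k).2
      simpa using this
    rw [e1, e2, Finset.mul_sum, Finset.sum_mul, Finset.sum_mul, Finset.mul_sum,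
      ← Finset.sum_add_distrib]
    refine Finset.sum_le_sum fun i hi => ?_
    have h2 := (hc i hi).zmain l0 l1 (so i hi) k 0
    rw [zero_add, sq] at h2
    have h3 := mul_le_mul_of_nonneg_left (J i hi k) (by
      have := D0 i hi
      positivity : 0 ≤ (k : ℝ) ^ 2 * (D i * (√lam)⁻¹))
    refine h2.trans ?_
    have e3 : (k * ((0 : ℕ) + k) : ℝ) * ((M i * r i + (M i + M i ^ 2) * r i ^ 2) * (√lam)⁻¹ *
        Ji (tsupport (φ i)) (A i).ρ (u ∘ (A i).c.symm) lam⁻¹ k) =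
        (k : ℝ) ^ 2 * (D i * (√lam)⁻¹) *
          Ji (tsupport (φ i)) (A i).ρ (u ∘ (A i).c.symm) lam⁻¹ k := by
      rw [hD]; push_cast; ring
    rw [e3]
    linarith
  · have e1 : ∫ x, Φ x * (u x ^ 2 + E x) ∂vol =
        ∑ i ∈ s, Zi (φ i) (A i).ρ (u ∘ (A i).c.symm) lam⁻¹ 1 0 := by
      have := (te_mom T hl hu hE 1 0).2
      simpa using this
    have e2 : ∫ x, Φ x * u x ^ 2 ∂vol =
        ∑ i ∈ s, Zi (φ i) (A i).ρ (u ∘ (A i).c.symm) lam⁻¹ 0 1 := by
      have := (te_mom T hl hu hE 0 1).2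
      simpa using this
    rw [e1, e2, Finset.mul_sum, Finset.sum_mul, Finset.sum_mul, ← Finset.sum_add_distrib]
    refine Finset.sum_le_sum fun i hi => ?_
    have h2 := (abs_le.1 ((hc i hi).i1 l0 (so i hi) 0 0)).1
    rw [sq] at h2
    simp only [Nat.cast_zero, mul_zero, zero_add, one_mul, zero_mul, add_zero] at h2
    have h3 := J i hi 1
    simp only [pow_one] at h3
    have Mr0 : 0 ≤ M i * r i := by
      have := (hc i hi).M0
      have := (hc i hi).r0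
      positivity
    have W0 : 0 ≤ ∫ x, (u x ^ 2 + E x) ∂vol := integral_nonneg w0
    have h4 : M i * r i * (√lam)⁻¹ * Ji (tsupport (φ i)) (A i).ρ (u ∘ (A i).c.symm) lam⁻¹ 1 ≤
        D i * (√lam)⁻¹ * ∫ x, (u x ^ 2 + E x) ∂vol :=
      (mul_le_mul_of_nonneg_left h3 (by positivity)).trans
        (mul_le_mul_of_nonneg_right (mul_le_mul_of_nonneg_right (D1 i hi) g0) W0)
    linarith

end

end Pool.Agent.Helper32.EV
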