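import Pool.Agent.Helper32.EV.F

/-!
Project EV (helper32): local estimates for sequences of solutions in a chart.
-/

set_option autoImplicit false
open MeasureTheory Filter Topology Complex
open scoped ContDiff ENNReal

namespace Pool.Agent.Helper32.EV

open Pool.Agent.W745.RW Pool.Agent.TH421.AC Pool.Agent.TH421.DF Pool.Agent.N252.TV
open Pool.Agent.TH294.RG (MK2)

noncomputable section

variable {Ω : Set ℂ} {ρ : ℂ → ℝ} {lam : ℕ → ℝ} {u : ℕ → ℂ → ℝ}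

/-- a sequence of solutions, locally bounded in `L²` -/
structure Sq (Ω : Set ℂ) (ρ : ℂ → ℝ) (lam : ℕ → ℝ) (u : ℕ → ℂ → ℝ) : Prop where
  op : IsOpen Ω
  sr : ContDiffOn ℝ ∞ ρ Ω
  pos : ∀ z ∈ Ω, 0 < ρ z
  lim : Tendsto lam atTop atTop
  sm : ∀ n, ContDiffOn ℝ ∞ (u n) Ω
  eq : ∀ n, ∀ z ∈ Ω, lapl (u n) z + lam n * (ρ z * u n z) = 0
  bd : LocL2 Ω u

/-- **A crude bound.** -/
theorem Sq.sup (Q : Sq Ω ρ lam u) {S : Set ℂ} (hS : IsCompact S) (hSΩ : S ⊆ Ω) :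
    ∃ C : ℝ, 0 ≤ C ∧ ∀ᶠ n in atTop, ∀ z ∈ S,
      gw (kk ρ (lam n)⁻¹) (u n) z ≤ C * lam n ^ 2 := by
  have hΩ := Q.op
  have hu := Q.sm
  obtain ⟨l, hl⟩ : ∃ l : ℕ → ℝ, ∀ n, l n = max (lam n) 1 := ⟨_, fun _ => rfl⟩
  have l1 : ∀ n, 1 ≤ l n := fun n => by rw [hl]; exact le_max_right _ _
  have ev : ∀ᶠ n in atTop, l n = lam n := (Q.lim.eventually_ge_atTop 1).mono fun n hn => by
    rw [hl, max_eq_left hn]
  have ll : Tendsto l atTop atTop := Q.lim.congr' (ev.mono fun n hn => hn.symm)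
  obtain ⟨h, hh⟩ : ∃ h : ℕ → ℝ, ∀ n, h n = (√(l n))⁻¹ := ⟨_, fun _ => rfl⟩
  have hp : ∀ n, 0 < h n := fun n => by
    rw [hh]; exact inv_pos.2 (Real.sqrt_pos.2 (lt_of_lt_of_le one_pos (l1 n)))
  have h0 : Tendsto h atTop (𝓝 0) :=
    (tendsto_inv_atTop_zero.comp (Real.tendsto_sqrt_atTop.comp ll)).congr fun n => (hh n).symm
  have h2 : ∀ n, h n ^ 2 * l n = 1 := fun n => by
    have p : 0 < l n := lt_of_lt_of_le one_pos (l1 n)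
    rw [hh, inv_pow, Real.sq_sqrt p.le, inv_mul_cancel₀ p.ne']
  have lbu : Pool.Agent.TH294.RS.LB Ω 2 (cx u) := by
    refine ⟨fun n => Complex.ofRealCLM.contDiff.comp_contDiffOn (hu n), fun K hK hKB => ?_⟩
    obtain ⟨C, hC⟩ := Q.bd K hK hKB
    refine ⟨C, hC.mono fun n hn => ?_⟩
    simp only [cx, Complex.norm_real, Real.norm_eq_abs, sq_abs]
    exact hn
  have MKu : MK2 Ω h 3 (cx u) := by
    refine mk_sol hΩ hp h0 lbu (ρ := fun z => (ρ z : ℂ))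
      (Complex.ofRealCLM.contDiff.comp_contDiffOn Q.sr) (c := fun n => h n ^ 2 * lam n) (M := 1)
      (ev.mono fun n hn => by rw [← hn, h2 n]; norm_num) ?_ 3
    intro n z hz
    have e1 : lap (cx u n) z = ((lapl (u n) z : ℝ) : ℂ) :=
      Pool.Agent.TH294.RS.lap_re hΩ (hu n) hz
    simp only [Pool.Agent.TH294.RS.hL]
    rw [e1]
    have e2 : lapl (u n) z = -(lam n * (ρ z * u n z)) := by linarith [Q.eq n z hz]
    rw [e2]
    simp only [cx]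
    push_cast
    ring
  have sp0 := mk_sp hΩ hp h0 MKu.down
  have sp1 := mk_sp hΩ hp h0 MKu.2.1
  have sp2 := mk_sp hΩ hp h0 MKu.2.2
  obtain ⟨C0, C00, b0⟩ := sp0.bd S hS hSΩ
  obtain ⟨C1, C10, b1⟩ := sp1.bd S hS hSΩ
  obtain ⟨C2, C20, b2⟩ := sp2.bd S hS hSΩ
  obtain ⟨c, c0, hc⟩ := exists_low hS (Q.sr.continuousOn.mono hSΩ) fun z hz => Q.pos z (hSΩ hz)
  refine ⟨C0 ^ 2 + c⁻¹ * (C1 ^ 2 + C2 ^ 2), by positivity, ?_⟩
  filter_upwards [ev, b0, b1, b2] with n e0 b0 b1 b2 z hz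
  have hzΩ := hSΩ hz
  have a0 := b0 z hz
  have a1 := b1 z hz
  have a2 := b2 z hz
  rw [hd_cx hΩ hu 1 n hzΩ] at a1
  rw [hd_cx hΩ hu I n hzΩ] at a2
  simp only [cx, Complex.norm_real, Real.norm_eq_abs] at a0 a1 a2
  obtain ⟨g, hg⟩ : ∃ g, g = h n := ⟨_, rfl⟩
  have g0 : 0 < g := by rw [hg]; exact hp n
  rw [← hg] at a0 a1 a2
  obtain ⟨x, hx⟩ : ∃ x, x = rd h 1 u n z := ⟨_, rfl⟩
  obtain ⟨y, hy⟩ : ∃ y, y = rd h I u n z := ⟨_, rfl⟩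
  rw [← hx] at a1
  rw [← hy] at a2
  have q0 : (|u n z| * g ^ 2) ^ 2 ≤ C0 ^ 2 := pow_le_pow_left₀ (by positivity) a0 2
  have q1 : (|x| * g ^ 2) ^ 2 ≤ C1 ^ 2 := pow_le_pow_left₀ (by positivity) a1 2
  have q2 : (|y| * g ^ 2) ^ 2 ≤ C2 ^ 2 := pow_le_pow_left₀ (by positivity) a2 2
  rw [mul_pow, sq_abs] at q0 q1 q2
  have gl : g ^ 2 * lam n = 1 := by rw [hg, ← e0]; exact h2 n
  have lp : 0 < lam n := by
    rw [← e0]; exact lt_of_lt_of_le one_pos (l1 n)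
  have el : (lam n)⁻¹ = g ^ 2 := by
    rw [inv_eq_of_mul_eq_one_left gl]
  have e1 : gw (kk ρ (lam n)⁻¹) (u n) z = u n z ^ 2 + (ρ z)⁻¹ * (x ^ 2 + y ^ 2) := by
    rw [hx, hy]
    show u n z ^ 2 + ((lam n)⁻¹ * (ρ z)⁻¹) * (fderiv ℝ (u n) z 1 ^ 2 + fderiv ℝ (u n) z I ^ 2) =
      u n z ^ 2 + (ρ z)⁻¹ * ((h n * fderiv ℝ (u n) z 1) ^ 2 + (h n * fderiv ℝ (u n) z I) ^ 2)
    rw [el, hg]
    ring
  have r1 : (ρ z)⁻¹ ≤ c⁻¹ := inv_anti₀ c0 (hc z hz)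
  have r0 : 0 < (ρ z)⁻¹ := inv_pos.2 (Q.pos z hzΩ)
  have key : gw (kk ρ (lam n)⁻¹) (u n) z * (g ^ 2) ^ 2 ≤ C0 ^ 2 + c⁻¹ * (C1 ^ 2 + C2 ^ 2) := by
    rw [e1]
    have s1 : (x ^ 2 + y ^ 2) * (g ^ 2) ^ 2 ≤ C1 ^ 2 + C2 ^ 2 := by linarith
    have s2 : (ρ z)⁻¹ * ((x ^ 2 + y ^ 2) * (g ^ 2) ^ 2) ≤ c⁻¹ * (C1 ^ 2 + C2 ^ 2) :=
      mul_le_mul r1 s1 (by positivity) (by positivity)
    linarith
  have e3 : gw (kk ρ (lam n)⁻¹) (u n) z =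
      gw (kk ρ (lam n)⁻¹) (u n) z * (g ^ 2) ^ 2 * lam n ^ 2 := by
    have : (g ^ 2) ^ 2 * lam n ^ 2 = 1 := by rw [← mul_pow, gl, one_pow]
    rw [mul_assoc, this, mul_one]
  rw [e3]
  exact mul_le_mul_of_nonneg_right key (by positivity)

lemma Sq.so (Q : Sq Ω ρ lam u) {φ : ℂ → ℝ} {M r : ℝ} (H : Cst Ω ρ φ M r) {n : ℕ}
    (hn : 1 ≤ lam n) : So Ω (kk ρ (lam n)⁻¹) (u n) := by
  refine H.so (Q.sm n) fun z hz => ?_
  have h1 := Q.eq n z hz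
  have l0 : lam n ≠ 0 := by positivity
  have r0 := (Q.pos z hz).ne'
  have e : dX (dX (u n)) z + dY (dY (u n)) z = lapl (u n) z := rfl
  rw [e]
  have h2 : lapl (u n) z = -(lam n * (ρ z * u n z)) := by linarith
  rw [h2]
  unfold kk
  field_simp

lemma Sq.cw (Q : Sq Ω ρ lam u) (n : ℕ) : ContinuousOn (gw (kk ρ (lam n)⁻¹) (u n)) Ω := by
  have h1 : ContinuousOn (dX (u n)) Ω := (rsd Q.op (Q.sm n) 1).continuousOn
  have h2 : ContinuousOn (dY (u n)) Ω := (rsd Q.op (Q.sm n) I).continuousOn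
  exact ((Q.sm n).continuousOn.pow 2).add ((continuousOn_const.mul (Q.sr.continuousOn.inv₀
      fun z hz => (Q.pos z hz).ne')).mul ((h1.pow 2).add (h2.pow 2)))

lemma Sq.w0 (Q : Sq Ω ρ lam u) {n : ℕ} (hn : 1 ≤ lam n) {z : ℂ} (hz : z ∈ Ω) :
    0 ≤ gw (kk ρ (lam n)⁻¹) (u n) z := by
  have : 0 < kk ρ (lam n)⁻¹ z := mul_pos (by positivity) (inv_pos.2 (Q.pos z hz))
  exact add_nonneg (sq_nonneg _) (mul_nonneg this.le (PP_nn _ z))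

/-- integrals over compact sets -/
lemma Sq.iu (Q : Sq Ω ρ lam u) {S : Set ℂ} (hS : IsCompact S) (hSΩ : S ⊆ Ω) (n k : ℕ) :
    IntegrableOn (fun z => ρ z * u n z ^ (2 * k)) S :=
  (((Q.sr.continuousOn).mul ((Q.sm n).continuousOn.pow (2 * k))).mono hSΩ).integrableOn_compact hS

lemma Sq.iw (Q : Sq Ω ρ lam u) {S : Set ℂ} (hS : IsCompact S) (hSΩ : S ⊆ Ω) (n k : ℕ) :
    IntegrableOn (fun z => ρ z * gw (kk ρ (lam n)⁻¹) (u n) z ^ k) S :=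
  (((Q.sr.continuousOn).mul ((Q.cw n).pow k)).mono hSΩ).integrableOn_compact hS

lemma Sq.mono (Q : Sq Ω ρ lam u) {S T : Set ℂ} (hS : IsCompact S) (hSΩ : S ⊆ Ω) (hTS : T ⊆ S)
    (n k : ℕ) : ∫ z in T, ρ z * u n z ^ (2 * k) ≤ ∫ z in S, ρ z * u n z ^ (2 * k) := by
  refine setIntegral_mono_set (Q.iu hS hSΩ n k) ?_ hTS.eventuallyLE
  refine (ae_restrict_iff' hS.measurableSet).2 (ae_of_all _ fun z hz => ?_)
  exact mul_nonneg (Q.pos z (hSΩ hz)).le (by rw [pow_mul]; positivity)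

lemma Sq.nn (Q : Sq Ω ρ lam u) {S : Set ℂ} (hS : IsCompact S) (hSΩ : S ⊆ Ω) (n k : ℕ) :
    0 ≤ ∫ z in S, ρ z * u n z ^ (2 * k) :=
  setIntegral_nonneg hS.measurableSet fun z hz =>
    mul_nonneg (Q.pos z (hSΩ hz)).le (by rw [pow_mul]; positivity)

/-- one cut-off function -/
lemma Sq.one (Q : Sq Ω ρ lam u) {φ : ℂ → ℝ} (hφ : TF Ω φ) (hn : ∀ z, 0 ≤ φ z)
    (h1 : ∀ z, φ z ≤ 1) (k : ℕ) : ∃ D : ℝ, 0 ≤ D ∧ ∀ᶠ n in atTop,
      ((Nat.centralBinom k : ℝ) / 4 ^ k * Zi φ ρ (u n) (lam n)⁻¹ k 0 ≤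
        (∫ z in tsupport φ, ρ z * u n z ^ (2 * k)) +
          D * √(lam n)⁻¹ * ∫ z in tsupport φ, ρ z * gw (kk ρ (lam n)⁻¹) (u n) z ^ k) ∧
      (2 * Zi φ ρ (u n) (lam n)⁻¹ 0 1 ≤ Zi φ ρ (u n) (lam n)⁻¹ 1 0 +
          D * √(lam n)⁻¹ * ∫ z in tsupport φ, ρ z * gw (kk ρ (lam n)⁻¹) (u n) z ^ 1) := by
  obtain ⟨M, r, H⟩ := exists_cst Q.op Q.sr Q.pos hφ hn
  have M0 := H.M0
  have r0 := H.r0
  refine ⟨(1 + (k : ℝ) ^ 2) * (M * r + (M + M ^ 2) * r ^ 2), by positivity, ?_⟩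
  filter_upwards [Q.lim.eventually_ge_atTop 1] with n hn1
  have l0 : 0 < (lam n)⁻¹ := by positivity
  have l1 : (lam n)⁻¹ ≤ 1 := inv_le_one_of_one_le₀ hn1
  have so := Q.so H hn1
  have g0 : 0 ≤ √(lam n)⁻¹ := Real.sqrt_nonneg _
  refine ⟨?_, ?_⟩
  · have h2 := H.zmain l0 l1 so k 0
    rw [zero_add] at h2
    have J0 := H.j0 (U := u n) l0 k
    have eJ : ∫ z in tsupport φ, ρ z * gw (kk ρ (lam n)⁻¹) (u n) z ^ k =
      Ji (tsupport φ) ρ (u n) (lam n)⁻¹ k := rfl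
    rw [eJ]
    have h3 : Zi φ ρ (u n) (lam n)⁻¹ 0 k ≤ ∫ z in tsupport φ, ρ z * u n z ^ (2 * k) := by
      unfold Zi
      have c1 : ContinuousOn (fun z => ρ z * (gw (kk ρ (lam n)⁻¹) (u n) z ^ 0 *
          u n z ^ (2 * k))) Ω := Q.sr.continuousOn.mul (((Q.cw n).pow 0).mul
            ((Q.sm n).continuousOn.pow (2 * k)))
      refine int_le_set hφ.2.1.isClosed.measurableSet (tfi hφ c1)
        (Q.iu hφ.2.1 hφ.2.2 n k) (fun z hz => by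
          rw [image_eq_zero_of_notMem_tsupport hz, zero_mul]) fun z hz => ?_
      rw [pow_zero, one_mul]
      exact mul_le_of_le_one_left (mul_nonneg (Q.pos z (hφ.2.2 hz)).le
        (by rw [pow_mul]; positivity)) (h1 z)
    refine h2.trans (add_le_add h3 ?_)
    obtain ⟨J, hJ⟩ : ∃ J, J = Ji (tsupport φ) ρ (u n) (lam n)⁻¹ k := ⟨_, rfl⟩
    rw [← hJ] at J0 ⊢
    have : 0 ≤ (M * r + (M + M ^ 2) * r ^ 2) * √(lam n)⁻¹ * J := by positivity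
    push_cast
    nlinarith
  · have h2 := (abs_le.1 (H.i1 l0 so 0 0)).1
    have J0 := H.j0 (U := u n) l0 1
    simp only [Nat.cast_zero, mul_zero, zero_add, one_mul, zero_mul, add_zero] at h2
    have eJ : ∫ z in tsupport φ, ρ z * gw (kk ρ (lam n)⁻¹) (u n) z ^ 1 =
      Ji (tsupport φ) ρ (u n) (lam n)⁻¹ 1 := rfl
    rw [eJ]
    obtain ⟨J, hJ⟩ : ∃ J, J = Ji (tsupport φ) ρ (u n) (lam n)⁻¹ 1 := ⟨_, rfl⟩
    rw [← hJ] at J0 h2 ⊢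
    have q1 : 0 ≤ (M + M ^ 2) * r ^ 2 * √(lam n)⁻¹ * J := by positivity
    have q2 : 0 ≤ (k : ℝ) ^ 2 * ((M * r + (M + M ^ 2) * r ^ 2) * √(lam n)⁻¹ * J) := by positivity
    nlinarith

/-- the iteration -/
theorem Sq.iter (Q : Sq Ω ρ lam u) (k : ℕ) (N : ℕ) : ∀ K O : Set ℂ, IsCompact K → IsOpen O →
    K ⊆ O → O ⊆ Ω → ∃ (K' : Set ℂ) (C : ℝ), IsCompact K' ∧ K' ⊆ O ∧ 0 ≤ C ∧ ∀ᶠ n in atTop,
      ∫ z in K, ρ z * gw (kk ρ (lam n)⁻¹) (u n) z ^ k ≤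
        C * (∫ z in K', ρ z * u n z ^ (2 * k)) + C * √(lam n)⁻¹ ^ N * lam n ^ (2 * k) := by
  induction N with
  | zero =>
    intro K O hK hO hKO hOΩ
    obtain ⟨C, C0, hC⟩ := Q.sup hK (hKO.trans hOΩ)
    have hKΩ := hKO.trans hOΩ
    have iρ : IntegrableOn ρ K := (Q.sr.continuousOn.mono hKΩ).integrableOn_compact hK
    have R0 : 0 ≤ ∫ z in K, ρ z := setIntegral_nonneg hK.measurableSet fun z hz =>
      (Q.pos z (hKΩ hz)).le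
    refine ⟨K, C ^ k * ∫ z in K, ρ z, hK, hKO, by positivity, ?_⟩
    filter_upwards [hC, Q.lim.eventually_ge_atTop 1] with n hn hn1
    have h1 : ∫ z in K, ρ z * gw (kk ρ (lam n)⁻¹) (u n) z ^ k ≤
        ∫ z in K, ρ z * (C * lam n ^ 2) ^ k := by
      refine setIntegral_mono_on (Q.iw hK hKΩ n k) (iρ.mul_const _) hK.measurableSet
        fun z hz => ?_
      exact mul_le_mul_of_nonneg_left (pow_le_pow_left₀ (Q.w0 hn1 (hKΩ hz)) (hn z hz) k)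
        (Q.pos z (hKΩ hz)).le
    rw [integral_mul_const] at h1
    have h2 := Q.nn hK hKΩ n k
    have h3 : 0 ≤ C ^ k * (∫ z in K, ρ z) * ∫ z in K, ρ z * u n z ^ (2 * k) := by positivity
    refine h1.trans ?_
    rw [pow_zero, mul_one, mul_pow, ← pow_mul]
    nlinarith
  | succ N ih =>
    intro K O hK hO hKO hOΩ
    obtain ⟨χ, hχ, χ1, χ0, χ2⟩ := Pool.Agent.TH294.RS.exists_cut hO hK hKO
    have hχΩ : TF Ω χ := ⟨hχ.1, hχ.2.1, hχ.2.2.trans hOΩ⟩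
    have hKΩ := hKO.trans hOΩ
    obtain ⟨D, D0, hD⟩ := Q.one hχΩ χ0 χ2 k
    obtain ⟨K2, C2, hK2, hK2O, C20, hC2⟩ := ih (tsupport χ) O hχ.2.1 hO hχ.2.2 hOΩ
    obtain ⟨c, hc⟩ : ∃ c : ℝ, c = (Nat.centralBinom k : ℝ) / 4 ^ k := ⟨_, rfl⟩
    have c0 : 0 < c := by
      rw [hc]
      have : (0 : ℝ) < Nat.centralBinom k := by exact_mod_cast Nat.centralBinom_pos k
      positivity
    have hT : IsCompact (tsupport χ ∪ K2) := hχ.2.1.isCompact.union hK2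
    have hTO : tsupport χ ∪ K2 ⊆ O := Set.union_subset hχ.2.2 hK2O
    refine ⟨tsupport χ ∪ K2, c⁻¹ * (1 + D * C2), hT, hTO, by positivity, ?_⟩
    filter_upwards [hD, hC2, Q.lim.eventually_ge_atTop 1] with n hD hC2 hn1
    have hD := hD.1
    rw [← hc] at hD
    obtain ⟨g, hg⟩ : ∃ g, g = √(lam n)⁻¹ := ⟨_, rfl⟩
    have g0 : 0 ≤ g := by rw [hg]; exact Real.sqrt_nonneg _
    have g1 : g ≤ 1 := by
      rw [hg, ← Real.sqrt_one]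
      exact Real.sqrt_le_sqrt (inv_le_one_of_one_le₀ hn1)
    rw [← hg] at hD hC2 ⊢
    obtain ⟨m, hm⟩ : ∃ m, m = ∫ z in tsupport χ ∪ K2, ρ z * u n z ^ (2 * k) := ⟨_, rfl⟩
    have m1 : ∫ z in tsupport χ, ρ z * u n z ^ (2 * k) ≤ m := by
      rw [hm]; exact Q.mono hT (hTO.trans hOΩ) Set.subset_union_left n k
    have m2 : ∫ z in K2, ρ z * u n z ^ (2 * k) ≤ m := by
      rw [hm]; exact Q.mono hT (hTO.trans hOΩ) Set.subset_union_right n k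
    have m0 : 0 ≤ m := by rw [hm]; exact Q.nn hT (hTO.trans hOΩ) n k
    rw [← hm]
    have hZ : ∫ z in K, ρ z * gw (kk ρ (lam n)⁻¹) (u n) z ^ k ≤
        Zi χ ρ (u n) (lam n)⁻¹ k 0 := by
      unfold Zi
      have c1 : ContinuousOn (fun z => ρ z * (gw (kk ρ (lam n)⁻¹) (u n) z ^ k *
          u n z ^ (2 * 0))) Ω := Q.sr.continuousOn.mul (((Q.cw n).pow k).mul
            ((Q.sm n).continuousOn.pow (2 * 0)))
      have nnZ : ∀ z, 0 ≤ χ z * (ρ z * (gw (kk ρ (lam n)⁻¹) (u n) z ^ k *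
          u n z ^ (2 * 0))) := by
        intro z
        by_cases hz : z ∈ Ω
        · have := Q.w0 hn1 hz
          have := (Q.pos z hz).le
          have := χ0 z
          rw [mul_zero, pow_zero]
          positivity
        · rw [image_eq_zero_of_notMem_tsupport fun h => hz (hχΩ.2.2 h), zero_mul]
      calc ∫ z in K, ρ z * gw (kk ρ (lam n)⁻¹) (u n) z ^ k =
          ∫ z in K, χ z * (ρ z * (gw (kk ρ (lam n)⁻¹) (u n) z ^ k * u n z ^ (2 * 0))) := by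
            refine setIntegral_congr_fun hK.measurableSet fun z hz => ?_
            show _ = χ z * (ρ z * (gw (kk ρ (lam n)⁻¹) (u n) z ^ k * u n z ^ (2 * 0)))
            rw [χ1 z hz, mul_zero, pow_zero]; ring
        _ ≤ _ := setIntegral_le_integral (tfi hχΩ c1) (ae_of_all _ nnZ)
    obtain ⟨J, hJ⟩ : ∃ J, J = ∫ z in tsupport χ, ρ z * gw (kk ρ (lam n)⁻¹) (u n) z ^ k :=
      ⟨_, rfl⟩
    rw [← hJ] at hD hC2
    have L0 : 0 ≤ lam n ^ (2 * k) := by positivity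
    obtain ⟨L, hL⟩ : ∃ L, L = lam n ^ (2 * k) := ⟨_, rfl⟩
    rw [← hL] at hC2 L0 ⊢
    have h3 : J ≤ C2 * m + C2 * g ^ N * L :=
      hC2.trans (by have := mul_le_mul_of_nonneg_left m2 C20; linarith)
    have h4 : D * g * J ≤ D * C2 * m + D * C2 * g ^ (N + 1) * L := by
      have q1 := mul_le_mul_of_nonneg_left h3 (by positivity : 0 ≤ D * g)
      have q2 : D * g * (C2 * m) ≤ D * C2 * m := by
        have : g * (D * C2 * m) ≤ 1 * (D * C2 * m) := mul_le_mul_of_nonneg_right g1 (by positivity)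
        linarith
      have q3 : D * g * (C2 * g ^ N * L) = D * C2 * g ^ (N + 1) * L := by rw [pow_succ]; ring
      linarith
    have h5 : c * ∫ z in K, ρ z * gw (kk ρ (lam n)⁻¹) (u n) z ^ k ≤
        (1 + D * C2) * m + (1 + D * C2) * g ^ (N + 1) * L := by
      have q1 := mul_le_mul_of_nonneg_left hZ c0.le
      have q2 : 0 ≤ g ^ (N + 1) * L := by positivity
      nlinarith
    have h6 := mul_le_mul_of_nonneg_left h5 (inv_pos.2 c0).le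
    rw [← mul_assoc, inv_mul_cancel₀ c0.ne', one_mul] at h6
    refine h6.trans (le_of_eq ?_)
    ring

/-- **Local moment bounds.** -/
theorem Sq.loc (Q : Sq Ω ρ lam u) (k : ℕ) {K O : Set ℂ} (hK : IsCompact K) (hO : IsOpen O)
    (hKO : K ⊆ O) (hOΩ : O ⊆ Ω) : ∃ (K' : Set ℂ) (C : ℝ), IsCompact K' ∧ K' ⊆ O ∧ 0 ≤ C ∧
      ∀ᶠ n in atTop, ∫ z in K, ρ z * gw (kk ρ (lam n)⁻¹) (u n) z ^ k ≤
        C * ((∫ z in K', ρ z * u n z ^ (2 * k)) + 1) := by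
  obtain ⟨K', C, hK', hK'O, C0, hC⟩ := Q.iter k (4 * k) K O hK hO hKO hOΩ
  refine ⟨K', C, hK', hK'O, C0, ?_⟩
  filter_upwards [hC, Q.lim.eventually_ge_atTop 1] with n hn hn1
  have e : √(lam n)⁻¹ ^ (4 * k) * lam n ^ (2 * k) = 1 := by
    have l0 : 0 < lam n := by linarith
    have e1 : √(lam n)⁻¹ ^ (4 * k) = ((lam n)⁻¹) ^ (2 * k) := by
      have : 4 * k = 2 * (2 * k) := by ring
      rw [this, pow_mul, Real.sq_sqrt (by positivity)]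
    rw [e1, ← mul_pow, inv_mul_cancel₀ l0.ne', one_pow]
  rw [mul_assoc C, e] at hn
  linarith

end

end Pool.Agent.Helper32.EV
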