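import Pool.Agent.Helper32.EV.H

/-!
Project EV (helper32): covering an open subset of a surface by disjoint pieces in charts.
-/

set_option autoImplicit false
open MeasureTheory Filter Topology Complex
open scoped ContDiff ENNReal

namespace Pool.Agent.Helper32.EV

open Pool.Agent.W745.RW Pool.Agent.TH421.AC Pool.Agent.N252.TV

noncomputable section

variable {X : Type*} [TopologicalSpace X] [MeasurableSpace X] {vol : Measure X}
variable {A : ℕ → IsoChart X vol}

/-- finitely many disjoint compact sets have disjoint open neighbourhoods -/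
lemma sep_fin {X : Type*} [TopologicalSpace X] [T2Space X] {N : ℕ} {K : ℕ → Set X} (hK : ∀ i, IsCompact (K i))
    (hd : ∀ i j, i ≠ j → Disjoint (K i) (K j)) : ∃ V : ℕ → Set X, (∀ i, IsOpen (V i)) ∧
      (∀ i, K i ⊆ V i) ∧ ∀ i ∈ Finset.range N, ∀ j ∈ Finset.range N, i ≠ j →
        Disjoint (V i) (V j) := by
  have h1 : ∀ i j, i ≠ j → ∃ P Q : Set X, IsOpen P ∧ IsOpen Q ∧ K i ⊆ P ∧ K j ⊆ Q ∧
      Disjoint P Q := fun i j hij =>
    SeparatedNhds.of_isCompact_isCompact (hK i) (hK j) (hd i j hij)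
  choose! P Q hP hQ hKP hKQ hPQ using h1
  refine ⟨fun i => ⋂ j ∈ (Finset.range N).erase i, (P i j ∩ Q j i), fun i => ?_, fun i => ?_,
    fun i hi j hj hij => ?_⟩
  · refine isOpen_biInter_finset fun j hj => ?_
    have hne := (Finset.mem_erase.1 hj).1
    exact (hP i j hne.symm).inter (hQ j i hne)
  · refine Set.subset_iInter₂ fun j hj => ?_
    have hne := (Finset.mem_erase.1 hj).1
    exact Set.subset_inter (hKP i j hne.symm) (hKQ j i hne)
  · refine (hPQ i j hij).mono ?_ ?_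
    · refine (Set.biInter_subset_of_mem (Finset.mem_erase.2 ⟨hij.symm, hj⟩)).trans ?_
      exact Set.inter_subset_left
    · refine (Set.biInter_subset_of_mem (Finset.mem_erase.2 ⟨hij, hi⟩)).trans ?_
      exact Set.inter_subset_right

variable [BorelSpace X]

/-- compact pieces -/
lemma pieces [T2Space X] [IsFiniteMeasure vol] {S : Set X} (hS : MeasurableSet S)
    (C : IsoChart X vol) (hSC : S ⊆ C.c.source) {ε : ℝ} (hε : 0 < ε) :
    ∃ L : Set ℂ, IsCompact L ∧ L ⊆ C.c.target ∧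
      C.c.symm '' L ⊆ S ∧ vol (S \ C.c.symm '' L) ≤ ENNReal.ofReal ε := by
  have fm : IsFiniteMeasure C.m := C.fin
  obtain ⟨E, hE⟩ : ∃ E : Set ℂ, E = C.c.target ∩ C.c.symm ⁻¹' S := ⟨_, rfl⟩
  have mE : MeasurableSet E := by
    have h1 : Measurable (C.c.target.domRestrict C.c.symm) :=
      (continuousOn_iff_continuous_domRestrict.1 C.c.continuousOn_symm).measurable
    have h2 := C.c.open_target.measurableSet.subtype_image (h1 hS)
    have e : E = Subtype.val '' (C.c.target.domRestrict C.c.symm ⁻¹' S) := by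
      rw [hE]
      ext z
      constructor
      · rintro ⟨h1, h2⟩; exact ⟨⟨z, h1⟩, h2, rfl⟩
      · rintro ⟨⟨w, hw⟩, h2, rfl⟩; exact ⟨hw, h2⟩
    rw [e]; exact h2
  obtain ⟨L, hLE, hL, hL2⟩ := mE.exists_isCompact_sdiff_lt (measure_ne_top C.m E)
    (ENNReal.ofReal_pos.2 hε).ne'
  have hLt : L ⊆ C.c.target := hLE.trans (by rw [hE]; exact Set.inter_subset_left)
  have hK : IsCompact (C.c.symm '' L) := hL.image_of_continuousOn (C.c.continuousOn_symm.mono hLt)
  refine ⟨L, hL, hLt, ?_, ?_⟩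
  · rintro x ⟨z, hz, rfl⟩
    have := hLE hz
    rw [hE] at this
    exact this.2
  · have m1 : MeasurableSet (S \ C.c.symm '' L) := hS.diff hK.measurableSet
    have e1 : vol (S \ C.c.symm '' L) = C.m (C.c.symm ⁻¹' (S \ C.c.symm '' L)) := by
      rw [← Measure.map_apply_of_aemeasurable C.aem' m1, C.map, Measure.restrict_apply m1,
        Set.inter_eq_self_of_subset_left (Set.sdiff_subset.trans hSC)]
    rw [e1]
    refine le_trans ?_ hL2.le
    have ae : ∀ᵐ z ∂C.m, z ∈ C.c.target := by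
      have h1 : ∀ᵐ z ∂(volume.restrict C.c.target), z ∈ C.c.target :=
        ae_restrict_mem C.c.open_target.measurableSet
      exact (withDensity_absolutelyContinuous _ _).ae_le h1
    refine measure_mono_ae (ae.mono fun z hz hz2 => ?_)
    refine ⟨?_, fun h => hz2.2 ⟨z, h, rfl⟩⟩
    rw [hE]
    exact ⟨hz, hz2.1⟩

/-- **Covering an open set.** -/
lemma cover [T2Space X] [IsFiniteMeasure vol] {U : Set X} (hU : IsOpen U)
    (hUA : vol (U \ ⋃ i, (A i).c.source) = 0) {ε : ℝ} (hε : 0 < ε) :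
    ∃ (N : ℕ) (L : ℕ → Set ℂ) (V : ℕ → Set X), (∀ i, IsCompact (L i)) ∧ (∀ i, IsOpen (V i)) ∧
      (∀ i, V i ⊆ U) ∧ (∀ i, L i ⊆ (A i).c.target ∩ (A i).c.symm ⁻¹' V i) ∧
      (∀ i ∈ Finset.range N, ∀ j ∈ Finset.range N, i ≠ j → Disjoint (V i) (V j)) ∧
      vol.real (U \ ⋃ i ∈ Finset.range N, (A i).c.symm '' L i) ≤ ε := by
  have om : ∀ i, MeasurableSet (A i).c.source := fun i => (A i).c.open_source.measurableSet
  obtain ⟨W, hW⟩ : ∃ W : ℕ → Set X, ∀ k, W k = ⋃ i < k, (A i).c.source := ⟨_, fun _ => rfl⟩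
  have mW : ∀ k, MeasurableSet (W k) := fun k => by
    rw [hW]; exact MeasurableSet.iUnion fun i => MeasurableSet.iUnion fun _ => om i
  have hlim : Tendsto (fun k => vol (U \ W k)) atTop (𝓝 0) := by
    have h1 : Tendsto (vol ∘ fun k => U \ W k) atTop (𝓝 (vol (⋂ k, U \ W k))) := by
      refine tendsto_measure_iInter_atTop
        (fun k => (hU.measurableSet.diff (mW k)).nullMeasurableSet) ?_ ⟨0, measure_ne_top _ _⟩
      intro k l hkl
      refine Set.sdiff_subset_sdiff_right ?_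
      rw [hW, hW]
      exact Set.biUnion_subset_biUnion_left fun i hi => lt_of_lt_of_le hi hkl
    have e : (⋂ k, U \ W k) = U \ ⋃ i, (A i).c.source := by
      rw [← Set.sdiff_iUnion]
      congr 1
      ext x
      simp only [hW, Set.mem_iUnion]
      constructor
      · rintro ⟨k, i, -, h⟩; exact ⟨i, h⟩
      · rintro ⟨i, h⟩; exact ⟨i + 1, i, Nat.lt_succ_self i, h⟩
    rw [e, hUA] at h1
    exact h1
  have h4 : ∀ᶠ k : ℕ in atTop, (vol (U \ W k)).toReal < ε / 2 := by
    have h3 := (ENNReal.tendsto_toReal ENNReal.zero_ne_top).comp hlim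
    apply h3.eventually_lt_const
    simpa using (by positivity : 0 < ε / 2)
  obtain ⟨N, hN⟩ := h4.exists
  obtain ⟨e, he⟩ : ∃ e : ℝ, e = ε / (2 * (N + 1)) := ⟨_, rfl⟩
  have e0 : 0 < e := by rw [he]; positivity
  have hp : ∀ i, ∃ L : Set ℂ, IsCompact L ∧ L ⊆ (A i).c.target ∧
      (A i).c.symm '' L ⊆ U ∩ ((A i).c.source \ W i) ∧
      vol ((U ∩ ((A i).c.source \ W i)) \ (A i).c.symm '' L) ≤ ENNReal.ofReal e := fun i =>
    pieces (hU.measurableSet.inter ((om i).diff (mW i))) (A i) (fun x hx => hx.2.1) e0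
  choose L hL hLt hLS hLv using hp
  have hd : ∀ i j, i ≠ j → Disjoint ((A i).c.symm '' L i) ((A j).c.symm '' L j) := by
    intro i j hij
    rw [Set.disjoint_left]
    intro x hx hy
    have a1 := (hLS i hx).2
    have a2 := (hLS j hy).2
    rcases lt_or_gt_of_ne hij with h | h
    · exact a2.2 (by rw [hW]; exact Set.mem_iUnion₂.2 ⟨i, h, a1.1⟩)
    · exact a1.2 (by rw [hW]; exact Set.mem_iUnion₂.2 ⟨j, h, a2.1⟩)
  obtain ⟨V, hV, hKV, hVd⟩ := sep_fin (N := N) (fun i => (hL i).image_of_continuousOn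
    ((A i).c.continuousOn_symm.mono (hLt i))) hd
  refine ⟨N, L, fun i => V i ∩ U, hL, fun i => (hV i).inter hU, fun i => Set.inter_subset_right,
    fun i z hz => ⟨hLt i hz, hKV i ⟨z, hz, rfl⟩, (hLS i ⟨z, hz, rfl⟩).1⟩,
    fun i hi j hj hij => (hVd i hi j hj hij).mono Set.inter_subset_left Set.inter_subset_left, ?_⟩
  have hsub : U \ (⋃ i ∈ Finset.range N, (A i).c.symm '' L i) ⊆
      (U \ W N) ∪ ⋃ i ∈ Finset.range N,
        ((U ∩ ((A i).c.source \ W i)) \ (A i).c.symm '' L i) := by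
    intro x hx
    by_cases hxW : x ∈ W N
    · right
      have h1 : ∃ i, i < N ∧ x ∈ (A i).c.source := by
        rw [hW] at hxW
        obtain ⟨i, hi, h⟩ := Set.mem_iUnion₂.1 hxW
        exact ⟨i, hi, h⟩
      classical
      have h2 := Nat.find_spec h1
      refine Set.mem_iUnion₂.2 ⟨Nat.find h1, Finset.mem_range.2 h2.1, ⟨hx.1, h2.2, ?_⟩, ?_⟩
      · rw [hW]
        intro h3
        obtain ⟨j, hj, h4⟩ := Set.mem_iUnion₂.1 h3
        exact Nat.find_min h1 hj ⟨lt_trans hj h2.1, h4⟩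
      · intro h3
        exact hx.2 (Set.mem_iUnion₂.2 ⟨Nat.find h1, Finset.mem_range.2 h2.1, h3⟩)
    · exact Or.inl ⟨hx.1, hxW⟩
  have b1 : vol.real (U \ W N) ≤ ε / 2 := hN.le
  have b2 : vol.real (⋃ i ∈ Finset.range N,
      ((U ∩ ((A i).c.source \ W i)) \ (A i).c.symm '' L i)) ≤ ε / 2 := by
    refine (measureReal_biUnion_finset_le _ _).trans ?_
    have : ∀ i ∈ Finset.range N, vol.real ((U ∩ ((A i).c.source \ W i)) \
        (A i).c.symm '' L i) ≤ e := fun i _ =>
      ENNReal.toReal_le_of_le_ofReal e0.le (hLv i)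
    refine (Finset.sum_le_sum this).trans ?_
    rw [Finset.sum_const, Finset.card_range, nsmul_eq_mul, he]
    rw [mul_div_assoc', div_le_div_iff₀ (by positivity) (by norm_num)]
    nlinarith
  calc vol.real (U \ ⋃ i ∈ Finset.range N, (A i).c.symm '' L i) ≤ _ :=
        measureReal_mono hsub
    _ ≤ _ := measureReal_union_le _ _
    _ ≤ ε := by linarith

end

end Pool.Agent.Helper32.EV
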