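import Pool.Agent.Helper32.EV.J

/-!
Project EV (helper32): the even moments on open sets.
-/

set_option autoImplicit false
open MeasureTheory Filter Topology Complex
open scoped ContDiff ENNReal

namespace Pool.Agent.Helper32.EV

open Pool.Agent.W745.RW Pool.Agent.TH421.AC Pool.Agent.N252.TV

noncomputable section

/-- the tangent line of a power -/
lemma tang {w t : ℝ} (hw : 0 ≤ w) (ht : 0 ≤ t) (k : ℕ) :
    (k + 1 : ℝ) * t ^ k * w - k * t ^ (k + 1) ≤ w ^ (k + 1) := by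
  induction k with
  | zero => simp
  | succ k ih =>
    have h1 := mul_le_mul_of_nonneg_left ih hw
    have h2 : 0 ≤ (k + 1 : ℝ) * t ^ k * (w - t) ^ 2 := by positivity
    push_cast
    have e1 : w ^ (k + 1 + 1) = w * w ^ (k + 1) := by ring
    rw [e1]
    refine le_trans ?_ h1
    have e2 : t ^ (k + 1) = t ^ k * t := pow_succ _ _
    have e3 : t ^ (k + 1 + 1) = t ^ k * t ^ 2 := by ring
    rw [e3, e2]
    nlinarith

/-- splitting off small values -/
lemma split_val {y τ : ℝ} (hy : 0 ≤ y) (hτ : 0 < τ) (k : ℕ) :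
    y ≤ τ + (τ ^ k)⁻¹ * y ^ (k + 1) := by
  rcases le_total y τ with h | h
  · have : 0 ≤ (τ ^ k)⁻¹ * y ^ (k + 1) := by positivity
    linarith
  · have h1 : τ ^ k * y ≤ y ^ (k + 1) := by
      rw [pow_succ]
      exact mul_le_mul_of_nonneg_right (pow_le_pow_left₀ hτ.le h k) hy
    have h2 : y ≤ (τ ^ k)⁻¹ * y ^ (k + 1) := by
      rw [inv_mul_eq_div, le_div_iff₀ (by positivity)]
      linarith
    linarith

lemma Sq.tan {Ω : Set ℂ} {ρ : ℂ → ℝ} {lam : ℕ → ℝ} {u : ℕ → ℂ → ℝ} (Q : Sq Ω ρ lam u)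
    {φ : ℂ → ℝ} (hφ : TF Ω φ) (h0 : ∀ z, 0 ≤ φ z) {n : ℕ} (hn : 1 ≤ lam n) {t : ℝ} (ht : 0 ≤ t)
    (k : ℕ) : (k + 1 : ℝ) * t ^ k * Zi φ ρ (u n) (lam n)⁻¹ 1 0 -
      k * t ^ (k + 1) * Zi φ ρ (u n) (lam n)⁻¹ 0 0 ≤ Zi φ ρ (u n) (lam n)⁻¹ (k + 1) 0 := by
  have ii : ∀ a : ℕ, Integrable (fun z => φ z * (ρ z * (gw (kk ρ (lam n)⁻¹) (u n) z ^ a *
      u n z ^ (2 * 0)))) := fun a =>
    tfi hφ (Q.sr.continuousOn.mul (((Q.cw n).pow a).mul ((Q.sm n).continuousOn.pow (2 * 0))))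
  have e := comb3 (ii (k + 1)) (ii 1) (ii 0) 1 (-((k + 1 : ℝ) * t ^ k)) (k * t ^ (k + 1))
  have p : 0 ≤ ∫ z, (1 * (φ z * (ρ z * (gw (kk ρ (lam n)⁻¹) (u n) z ^ (k + 1) *
      u n z ^ (2 * 0)))) + (-((k + 1 : ℝ) * t ^ k)) * (φ z * (ρ z *
        (gw (kk ρ (lam n)⁻¹) (u n) z ^ 1 * u n z ^ (2 * 0)))) +
      (k * t ^ (k + 1)) * (φ z * (ρ z * (gw (kk ρ (lam n)⁻¹) (u n) z ^ 0 *
        u n z ^ (2 * 0))))) := by
    refine integral_nonneg fun z => ?_
    show 0 ≤ _
    by_cases hz : z ∈ Ω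
    · have h1 := tang (Q.w0 hn hz) ht k
      have h2 := mul_le_mul_of_nonneg_left h1 (mul_nonneg (h0 z) (Q.pos z hz).le)
      rw [mul_zero, pow_zero, pow_zero, pow_one]
      linarith
    · rw [image_eq_zero_of_notMem_tsupport fun h => hz (hφ.2.2 h)]
      simp
  rw [e] at p
  unfold Zi
  linarith

variable {X : Type*} [TopologicalSpace X] [MeasurableSpace X] {vol : Measure X}
variable {A : ℕ → IsoChart X vol}
variable [BorelSpace X]

/-- integrals over compact subsets of a chart -/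
lemma jv (C : IsoChart X vol) {F : X → ℝ} {V : Set X} (hV : IsOpen V) (iF : IntegrableOn F V vol)
    (F0 : ∀ x, 0 ≤ F x) {S : Set ℂ} (mS : MeasurableSet S)
    (hS : S ⊆ C.c.target ∩ C.c.symm ⁻¹' V) :
    ∫ z in S, C.ρ z * F (C.c.symm z) ≤ ∫ x in V, F x ∂vol := by
  have h := j_le C (F := V.indicator F) ((integrable_indicator_iff hV.measurableSet).2 iF)
    (fun x => Set.indicator_nonneg (fun y _ => F0 y) x) (fun z hz => (hS hz).1)
    (G := fun z => V.indicator F (C.c.symm z)) mS fun z _ => rfl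
  rw [integral_indicator hV.measurableSet] at h
  refine le_trans (le_of_eq (setIntegral_congr_fun mS fun z hz => ?_)) h
  show C.ρ z * F (C.c.symm z) = C.ρ z * V.indicator F (C.c.symm z)
  rw [Set.indicator_of_mem (show C.c.symm z ∈ V from (hS hz).2)]

omit [TopologicalSpace X] [BorelSpace X] in
/-- sums over disjoint sets -/
lemma sum_dis {N : ℕ} {V : ℕ → Set X} {U : Set X} (mV : ∀ i, MeasurableSet (V i))
    (_mU : MeasurableSet U) (hVU : ∀ i, V i ⊆ U)
    (hd : ∀ i ∈ Finset.range N, ∀ j ∈ Finset.range N, i ≠ j → Disjoint (V i) (V j)) {F : X → ℝ}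
    (iF : IntegrableOn F U vol) (F0 : ∀ x, 0 ≤ F x) :
    ∑ i ∈ Finset.range N, ∫ x in V i, F x ∂vol ≤ ∫ x in U, F x ∂vol := by
  have h1 : ∫ x in ⋃ i ∈ Finset.range N, V i, F x ∂vol =
      ∑ i ∈ Finset.range N, ∫ x in V i, F x ∂vol :=
    integral_biUnion_finset _ (fun i _ => mV i)
      (fun i hi j hj hij => hd i hi j hj hij) fun i _ => iF.mono_set (hVU i)
  rw [← h1]
  exact setIntegral_mono_set iF (ae_of_all _ F0)
    (Set.iUnion₂_subset fun i _ => hVU i).eventuallyLE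

/-- lower bound for the mass seen by a cut-off function -/
lemma mass_low (C : IsoChart X vol) {χ : ℂ → ℝ} (hχ : TF C.c.target χ) (χ0 : ∀ z, 0 ≤ χ z)
    {L : Set ℂ} (hL : L ⊆ C.c.target) (χ1 : ∀ z ∈ L, χ z = 1) {F : X → ℝ} (mF : Measurable F)
    (_iF : Integrable F vol) (F0 : ∀ x, 0 ≤ F x)
    (cF : ContinuousOn (fun z => F (C.c.symm z)) C.c.target)
    (mL : MeasurableSet (C.c.symm '' L)) :
    ∫ x in C.c.symm '' L, F x ∂vol ≤ ∫ z, χ z * (C.ρ z * F (C.c.symm z)) := by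
  obtain ⟨i1, e1⟩ := pc_int C hχ.1.continuous mF (te_cont C hχ cF)
  rw [C.intt hχ] at e1
  have e2 : ∫ z, χ z * (C.ρ z * F (C.c.symm z)) = ∫ z, χ z * C.ρ z * F (C.c.symm z) := by
    congr 1; funext z; ring
  rw [e2, ← e1]
  have p0 : ∀ x, 0 ≤ pc C χ x * F x := fun x =>
    mul_nonneg (Set.indicator_nonneg (fun y _ => χ0 _) x) (F0 x)
  calc ∫ x in C.c.symm '' L, F x ∂vol = ∫ x in C.c.symm '' L, pc C χ x * F x ∂vol := by
        refine setIntegral_congr_fun mL fun x hx => ?_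
        obtain ⟨z, hz, rfl⟩ := hx
        show F (C.c.symm z) = pc C χ (C.c.symm z) * F (C.c.symm z)
        unfold pc
        rw [Set.indicator_of_mem (C.c.map_target (hL hz)), C.c.right_inv (hL hz), χ1 z hz,
          one_mul]
    _ ≤ _ := setIntegral_le_integral i1 (ae_of_all _ p0)

/-- **The even moments on open sets.** -/
theorem open_main [T2Space X] [IsFiniteMeasure vol] {U : Set X} (hU : IsOpen U)
    (hUA : vol (U \ ⋃ i, (A i).c.source) = 0) (hV : 0 < vol.real U) {lam : ℕ → ℝ}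
    (hlam : Tendsto lam atTop atTop) {u : ℕ → X → ℝ} (hu : ∀ n, IsEigen A (lam n) (u n)) {M : ℝ}
    (hM : ∀ n, MemLp (u n) 2 vol ∧ ∫ x, u n x ^ 2 ∂vol ≤ M) (k : ℕ) {ε : ℝ} (hε : 0 < ε) :
    ∀ᶠ n in atTop, IntegrableOn (fun x => u n x ^ (2 * (k + 2))) U vol →
      (Nat.centralBinom (k + 2) : ℝ) / 2 ^ (k + 2) * (vol.real U *
        ((∫ x in U, u n x ^ 2 ∂vol) / vol.real U) ^ (k + 2)) ≤
        (∫ x in U, u n x ^ (2 * (k + 2)) ∂vol) + ε := by
  obtain ⟨V0, hV0⟩ : ∃ V0, V0 = vol.real U := ⟨_, rfl⟩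
  have M0 : 0 ≤ M := (integral_nonneg fun x => sq_nonneg _).trans (hM 0).2
  obtain ⟨c, hc⟩ : ∃ c : ℝ, c = (Nat.centralBinom (k + 2) : ℝ) / 4 ^ (k + 2) := ⟨_, rfl⟩
  have c0 : 0 < c := by
    rw [hc]
    have : (0 : ℝ) < Nat.centralBinom (k + 2) := by exact_mod_cast Nat.centralBinom_pos (k + 2)
    positivity
  have hc2 : (Nat.centralBinom (k + 2) : ℝ) / 2 ^ (k + 2) = c * 2 ^ (k + 2) := by
    rw [hc]
    have : (4 : ℝ) ^ (k + 2) = 2 ^ (k + 2) * 2 ^ (k + 2) := by rw [← mul_pow]; norm_num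
    rw [this]
    field_simp
  rw [← hV0] at hV ⊢
  rw [hc2]
  obtain ⟨R, hR⟩ : ∃ R, R = M / V0 := ⟨_, rfl⟩
  have R0 : 0 ≤ R := by rw [hR]; positivity
  obtain ⟨Lm, hLm⟩ : ∃ Lm, Lm = c * 2 ^ (k + 2) * (V0 * R ^ (k + 2)) := ⟨_, rfl⟩
  have Lm0 : 0 ≤ Lm := by rw [hLm]; positivity
  obtain ⟨η, hη⟩ : ∃ η, η = ε / (1 + 3 * (k + 2) * c * (2 * R) ^ (k + 1)) := ⟨_, rfl⟩
  have η0 : 0 < η := by rw [hη]; positivity
  obtain ⟨τ, hτ⟩ : ∃ τ, τ = 1 + 2 * Lm / η := ⟨_, rfl⟩
  have τ1 : 1 ≤ τ := by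
    rw [hτ]
    have : 0 ≤ 2 * Lm / η := by positivity
    linarith
  have τ0 : 0 < τ := by linarith
  have τL : (τ ^ (k + 1))⁻¹ * Lm ≤ η / 2 := by
    have h1 : τ ≤ τ ^ (k + 1) := le_self_pow₀ τ1 (by omega)
    rw [inv_mul_eq_div, div_le_iff₀ (by positivity)]
    have h2 : Lm ≤ η / 2 * τ := by
      rw [hτ]
      have : η / 2 * (1 + 2 * Lm / η) = η / 2 + Lm := by field_simp
      rw [this]
      linarith
    exact h2.trans (mul_le_mul_of_nonneg_left h1 (by positivity))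
  obtain ⟨N, L, V, hL, hVo, hVU, hLV, hVd, hcov⟩ := cover hU hUA
    (by positivity : 0 < η / (2 * τ))
  have hΩ : ∀ i, IsOpen ((A i).c.target ∩ (A i).c.symm ⁻¹' V i) := fun i =>
    (A i).c.isOpen_inter_preimage_symm (hVo i)
  have cut : ∀ i, ∃ χ : ℂ → ℝ, TF ((A i).c.target ∩ (A i).c.symm ⁻¹' V i) χ ∧
      (∀ z ∈ L i, χ z = 1) ∧ (∀ z, 0 ≤ χ z) ∧ (∀ z, χ z ≤ 1) := fun i =>
    Pool.Agent.TH294.RS.exists_cut (hΩ i) (hL i) (hLV i)
  choose χ hχ χ1 χ0 χ2 using cut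
  have hχt : ∀ i, TF (A i).c.target (χ i) := fun i =>
    ⟨(hχ i).1, (hχ i).2.1, (hχ i).2.2.trans Set.inter_subset_left⟩
  have Q : ∀ i, Sq (A i).c.target (A i).ρ lam (fun n => u n ∘ (A i).c.symm) := fun i =>
    ⟨(A i).c.open_target, (A i).smooth, (A i).pos, hlam, fun n => (hu n).smooth i,
      fun n => (hu n).eq i, loc_l2 (A i) (fun n => (hu n).smooth i) hM⟩
  have h1 := fun i => (Q i).one (hχt i) (χ0 i) (χ2 i) (k + 2)
  choose D D0 hD using h1
  have h2 := fun i => (Q i).loc (k + 2) (hχ i).2.1.isCompact (hΩ i) (hχ i).2.2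
    Set.inter_subset_left
  choose K1 C1 hK1 hK1V C10 hC1 using h2
  have h3 := fun i => (Q i).loc 1 (hχ i).2.1.isCompact (hΩ i) (hχ i).2.2
    Set.inter_subset_left
  choose K2 C2 hK2 hK2V C20 hC2 using h3
  obtain ⟨G1, hG1⟩ : ∃ G1, G1 = ∑ i ∈ Finset.range N, D i * C1 i := ⟨_, rfl⟩
  obtain ⟨G2, hG2⟩ : ∃ G2, G2 = ∑ i ∈ Finset.range N, D i * C2 i := ⟨_, rfl⟩
  have G10 : 0 ≤ G1 := by
    rw [hG1]; exact Finset.sum_nonneg fun i _ => mul_nonneg (D0 i) (C10 i)
  have G20 : 0 ≤ G2 := by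
    rw [hG2]; exact Finset.sum_nonneg fun i _ => mul_nonneg (D0 i) (C20 i)
  have glim : Tendsto (fun n => √(lam n)⁻¹) atTop (𝓝 0) := by
    have := (Real.continuous_sqrt.tendsto 0).comp (tendsto_inv_atTop_zero.comp hlam)
    rwa [Real.sqrt_zero] at this
  have ev1 : ∀ᶠ n in atTop, G1 * (Lm + 1) * √(lam n)⁻¹ ≤ η := by
    have := glim.const_mul (G1 * (Lm + 1))
    rw [mul_zero] at this
    exact this.eventually_le_const η0
  have ev2 : ∀ᶠ n in atTop, G2 * (M + 1) * √(lam n)⁻¹ ≤ η := by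
    have := glim.const_mul (G2 * (M + 1))
    rw [mul_zero] at this
    exact this.eventually_le_const η0
  have evD := (Filter.eventually_all_finset (Finset.range N)).2 fun i _ => hD i
  have evC1 := (Filter.eventually_all_finset (Finset.range N)).2 fun i _ => hC1 i
  have evC2 := (Filter.eventually_all_finset (Finset.range N)).2 fun i _ => hC2 i
  filter_upwards [ev1, ev2, evD, evC1, evC2, hlam.eventually_ge_atTop 1] with n ev1 ev2 evD evC1
    evC2 hn1 hint
  obtain ⟨g, hg⟩ : ∃ g, g = √(lam n)⁻¹ := ⟨_, rfl⟩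
  have g0 : 0 ≤ g := by rw [hg]; exact Real.sqrt_nonneg _
  simp only [← hg] at ev1 ev2 evD evC1 evC2
  obtain ⟨m, hm⟩ : ∃ m, m = ∫ x in U, u n x ^ (2 * (k + 2)) ∂vol := ⟨_, rfl⟩
  have F0 : ∀ x, 0 ≤ u n x ^ (2 * (k + 2)) := fun x => by rw [pow_mul]; positivity
  have m0 : 0 ≤ m := by rw [hm]; exact integral_nonneg F0
  obtain ⟨a, ha⟩ : ∃ a, a = (∫ x in U, u n x ^ 2 ∂vol) / V0 := ⟨_, rfl⟩
  have i2 : Integrable (fun x => u n x ^ 2) vol := (hM n).1.integrable_sq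
  have s2 : ∫ x in U, u n x ^ 2 ∂vol ≤ M :=
    (setIntegral_le_integral i2 (ae_of_all _ fun x => sq_nonneg _)).trans (hM n).2
  have s20 : 0 ≤ ∫ x in U, u n x ^ 2 ∂vol := integral_nonneg fun x => sq_nonneg _
  have a0 : 0 ≤ a := by rw [ha]; positivity
  have aR : a ≤ R := by rw [ha, hR]; exact div_le_div_of_nonneg_right s2 hV.le
  have aV : ∫ x in U, u n x ^ 2 ∂vol = a * V0 := by rw [ha]; field_simp
  rw [← ha, ← hm]
  rcases le_total Lm m with hLm' | hmL
  · have : c * 2 ^ (k + 2) * (V0 * a ^ (k + 2)) ≤ Lm := by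
      rw [hLm]
      have := pow_le_pow_left₀ a0 aR (k + 2)
      exact mul_le_mul_of_nonneg_left (mul_le_mul_of_nonneg_left this hV.le) (by positivity)
    linarith
  -- the pieces
  have mV : ∀ i, MeasurableSet (V i) := fun i => (hVo i).measurableSet
  obtain ⟨P, hP⟩ : ∃ P : ℕ → ℝ, P = fun i =>
    Zi (χ i) (A i).ρ (u n ∘ (A i).c.symm) (lam n)⁻¹ (k + 2) 0 := ⟨_, rfl⟩
  obtain ⟨W, hW⟩ : ∃ W : ℕ → ℝ, W = fun i =>
    Zi (χ i) (A i).ρ (u n ∘ (A i).c.symm) (lam n)⁻¹ 1 0 := ⟨_, rfl⟩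
  obtain ⟨Y, hY⟩ : ∃ Y : ℕ → ℝ, Y = fun i =>
    Zi (χ i) (A i).ρ (u n ∘ (A i).c.symm) (lam n)⁻¹ 0 1 := ⟨_, rfl⟩
  obtain ⟨O, hO⟩ : ∃ O : ℕ → ℝ, O = fun i =>
    Zi (χ i) (A i).ρ (u n ∘ (A i).c.symm) (lam n)⁻¹ 0 0 := ⟨_, rfl⟩
  -- bound of the moments in the charts
  have bm : ∀ i, ∀ S : Set ℂ, IsCompact S → S ⊆ (A i).c.target ∩ (A i).c.symm ⁻¹' V i →
      ∫ z in S, (A i).ρ z * (u n ∘ (A i).c.symm) z ^ (2 * (k + 2)) ≤
        ∫ x in V i, u n x ^ (2 * (k + 2)) ∂vol := fun i S hS hSV =>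
    jv (A i) (F := fun x => u n x ^ (2 * (k + 2))) (hVo i) (hint.mono_set (hVU i)) F0
      hS.measurableSet hSV
  have sumV : ∑ i ∈ Finset.range N, ∫ x in V i, u n x ^ (2 * (k + 2)) ∂vol ≤ m := by
    rw [hm]; exact sum_dis mV hU.measurableSet hVU hVd hint F0
  have cP : c * ∑ i ∈ Finset.range N, P i ≤ m + η := by
    have h4 : ∀ i ∈ Finset.range N, c * P i ≤ (∫ x in V i, u n x ^ (2 * (k + 2)) ∂vol) +
        D i * C1 i * (g * (Lm + 1)) := by
      intro i hi
      have q1 := (evD i hi).1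
      have q2 := evC1 i hi
      have q3 := bm i (tsupport (χ i)) (hχ i).2.1.isCompact (hχ i).2.2
      have q4 := bm i (K1 i) (hK1 i) (hK1V i)
      have q5 : ∫ x in V i, u n x ^ (2 * (k + 2)) ∂vol ≤ m := by
        rw [hm]
        exact setIntegral_mono_set hint (ae_of_all _ F0) (hVU i).eventuallyLE
      have q6 : D i * g * (∫ z in tsupport (χ i), (A i).ρ z * gw (kk (A i).ρ (lam n)⁻¹)
          (u n ∘ (A i).c.symm) z ^ (k + 2)) ≤ D i * g * (C1 i * (Lm + 1)) := by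
        refine mul_le_mul_of_nonneg_left (q2.trans ?_) (mul_nonneg (D0 i) g0)
        exact mul_le_mul_of_nonneg_left (by linarith) (C10 i)
      have q7 : D i * g * (C1 i * (Lm + 1)) = D i * C1 i * (g * (Lm + 1)) := by ring
      rw [q7] at q6
      rw [hP]
      rw [← hc] at q1
      exact (q1.trans (add_le_add q3 q6))
    rw [Finset.mul_sum]
    refine (Finset.sum_le_sum h4).trans ?_
    rw [Finset.sum_add_distrib, ← Finset.sum_mul, ← hG1]
    have : G1 * (g * (Lm + 1)) = G1 * (Lm + 1) * g := by ring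
    linarith
  have WY : 2 * ∑ i ∈ Finset.range N, Y i ≤ (∑ i ∈ Finset.range N, W i) + η := by
    have h4 : ∀ i ∈ Finset.range N, 2 * Y i ≤ W i + D i * C2 i * (g * (M + 1)) := by
      intro i hi
      have q1 := (evD i hi).2
      have q2 := evC2 i hi
      have q4 : ∫ z in K2 i, (A i).ρ z * (u n ∘ (A i).c.symm) z ^ (2 * 1) ≤ M := by
        refine le_trans ?_ (hM n).2
        exact j_le (A i) i2 (fun x => sq_nonneg _) ((hK2V i).trans Set.inter_subset_left)
          (G := fun z => (u n ∘ (A i).c.symm) z ^ (2 * 1)) (hK2 i).measurableSet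
            fun z _ => by simp
      have q6 : D i * g * (∫ z in tsupport (χ i), (A i).ρ z * gw (kk (A i).ρ (lam n)⁻¹)
          (u n ∘ (A i).c.symm) z ^ 1) ≤ D i * g * (C2 i * (M + 1)) := by
        refine mul_le_mul_of_nonneg_left (q2.trans ?_) (mul_nonneg (D0 i) g0)
        exact mul_le_mul_of_nonneg_left (by linarith) (C20 i)
      have q7 : D i * g * (C2 i * (M + 1)) = D i * C2 i * (g * (M + 1)) := by ring
      rw [q7] at q6
      rw [hY, hW]
      exact q1.trans (add_le_add le_rfl q6)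
    rw [Finset.mul_sum]
    refine (Finset.sum_le_sum h4).trans ?_
    rw [Finset.sum_add_distrib, ← Finset.sum_mul, ← hG2]
    have : G2 * (g * (M + 1)) = G2 * (M + 1) * g := by ring
    linarith
  have OV : ∑ i ∈ Finset.range N, O i ≤ V0 := by
    have h4 : ∀ i ∈ Finset.range N, O i ≤ ∫ _ in V i, (1 : ℝ) ∂vol := by
      intro i _
      rw [hO]
      have c1 : ContinuousOn (fun z => (A i).ρ z * (gw (kk (A i).ρ (lam n)⁻¹)
          (u n ∘ (A i).c.symm) z ^ 0 * (u n ∘ (A i).c.symm) z ^ (2 * 0))) (A i).c.target := by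
        simp only [pow_zero, mul_zero, mul_one]
        exact (A i).smooth.continuousOn
      have q1 : Zi (χ i) (A i).ρ (u n ∘ (A i).c.symm) (lam n)⁻¹ 0 0 ≤
          ∫ z in tsupport (χ i), (A i).ρ z * 1 := by
        unfold Zi
        refine int_le_set (hχ i).2.1.isClosed.measurableSet (tfi (hχt i) c1) ?_
          (fun z hz => by rw [image_eq_zero_of_notMem_tsupport hz, zero_mul]) fun z hz => ?_
        · simp only [mul_one]
          exact ((A i).smooth.continuousOn.mono (hχt i).2.2).integrableOn_compact (hχ i).2.1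
        · simp only [pow_zero, mul_zero, mul_one]
          exact mul_le_of_le_one_left ((A i).pos z ((hχt i).2.2 hz)).le (χ2 i z)
      exact q1.trans (jv (A i) (F := fun _ => (1 : ℝ)) (hVo i)
        (integrableOn_const (measure_ne_top _ _)) (fun _ => zero_le_one)
        (hχ i).2.1.isClosed.measurableSet (hχ i).2.2)
    refine (Finset.sum_le_sum h4).trans ?_
    refine (sum_dis mV hU.measurableSet hVU hVd (F := fun _ => (1 : ℝ))
      (integrableOn_const (measure_ne_top _ _)) (fun _ => zero_le_one)).trans ?_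
    rw [setIntegral_const, smul_eq_mul, mul_one, hV0]
  obtain ⟨Kc, hKc⟩ : ∃ Kc : Set X, Kc = ⋃ i ∈ Finset.range N, (A i).c.symm '' L i := ⟨_, rfl⟩
  have mK : ∀ i, MeasurableSet ((A i).c.symm '' L i) := fun i =>
    ((hL i).image_of_continuousOn ((A i).c.continuousOn_symm.mono
      ((hLV i).trans Set.inter_subset_left))).measurableSet
  have mKc : MeasurableSet Kc := by
    rw [hKc]; exact Finset.measurableSet_biUnion _ fun i _ => mK i
  have Ylow : a * V0 - η ≤ ∑ i ∈ Finset.range N, Y i := by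
    have h4 : ∀ i ∈ Finset.range N, ∫ x in (A i).c.symm '' L i, u n x ^ 2 ∂vol ≤ Y i := by
      intro i _
      rw [hY]
      have := mass_low (A i) (hχt i) (χ0 i) ((hLV i).trans Set.inter_subset_left) (χ1 i)
        (F := fun x => u n x ^ 2) ((hu n).meas.pow_const 2) i2 (fun x => sq_nonneg _)
        (((hu n).smooth i).continuousOn.pow 2) (mK i)
      refine this.trans (le_of_eq ?_)
      unfold Zi
      congr 1
      funext z
      simp only [pow_zero, one_mul, mul_one, Function.comp_apply]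
    have h5 : ∫ x in Kc, u n x ^ 2 ∂vol ≤ ∑ i ∈ Finset.range N, Y i := by
      refine le_trans ?_ (Finset.sum_le_sum h4)
      have e1 : ∀ i, ∫ x in (A i).c.symm '' L i, u n x ^ 2 ∂vol =
          ∫ x, ((A i).c.symm '' L i).indicator (fun x => u n x ^ 2) x ∂vol := fun i =>
        (integral_indicator (mK i)).symm
      simp only [e1]
      rw [← integral_finsetSum _ fun i _ => i2.indicator (mK i), ← integral_indicator mKc]
      refine integral_mono (i2.indicator mKc)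
        (integrable_finsetSum _ fun i _ => i2.indicator (mK i)) fun x => ?_
      have n1 : ∀ i ∈ Finset.range N, 0 ≤ ((A i).c.symm '' L i).indicator
          (fun x => u n x ^ 2) x := fun i _ => Set.indicator_nonneg (fun _ _ => sq_nonneg _) x
      show Kc.indicator (fun x => u n x ^ 2) x ≤
        ∑ i ∈ Finset.range N, ((A i).c.symm '' L i).indicator (fun x => u n x ^ 2) x
      by_cases hx : x ∈ Kc
      · rw [Set.indicator_of_mem hx]
        rw [hKc] at hx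
        obtain ⟨i, hi, hxi⟩ := Set.mem_iUnion₂.1 hx
        refine le_trans (le_of_eq ?_) (Finset.single_le_sum n1 hi)
        rw [Set.indicator_of_mem hxi]
      · rw [Set.indicator_of_notMem hx]
        exact Finset.sum_nonneg n1
    have h6 : ∫ x in U, u n x ^ 2 ∂vol ≤ (∫ x in Kc, u n x ^ 2 ∂vol) +
        ∫ x in U \ Kc, u n x ^ 2 ∂vol := by
      rw [← integral_inter_add_sdiff mKc i2.integrableOn]
      refine add_le_add_left ?_ _
      exact setIntegral_mono_set i2.integrableOn (ae_of_all _ fun x => sq_nonneg _)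
        Set.inter_subset_right.eventuallyLE
    have h7 : ∫ x in U \ Kc, u n x ^ 2 ∂vol ≤ η := by
      have ic : IntegrableOn (fun _ : X => τ) (U \ Kc) vol :=
        integrableOn_const (measure_ne_top _ _)
      have ip : IntegrableOn (fun x => (τ ^ (k + 1))⁻¹ * u n x ^ (2 * (k + 2))) (U \ Kc) vol :=
        (hint.mono_set Set.sdiff_subset).const_mul _
      have q1 : ∫ x in U \ Kc, u n x ^ 2 ∂vol ≤
          ∫ x in U \ Kc, (τ + (τ ^ (k + 1))⁻¹ * u n x ^ (2 * (k + 2))) ∂vol := by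
        refine integral_mono i2.integrableOn (ic.add ip) fun x => ?_
        have := split_val (sq_nonneg (u n x)) τ0 (k + 1)
        rw [← pow_mul] at this
        exact this
      have q2 : ∫ x in U \ Kc, (τ + (τ ^ (k + 1))⁻¹ * u n x ^ (2 * (k + 2))) ∂vol =
          (∫ _ in U \ Kc, τ ∂vol) + ∫ x in U \ Kc, (τ ^ (k + 1))⁻¹ * u n x ^ (2 * (k + 2)) ∂vol :=
        integral_add ic ip
      rw [q2, setIntegral_const, smul_eq_mul, integral_const_mul] at q1
      have q3 : ∫ x in U \ Kc, u n x ^ (2 * (k + 2)) ∂vol ≤ Lm := by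
        refine le_trans ?_ hmL
        rw [hm]
        exact setIntegral_mono_set hint (ae_of_all _ F0) Set.sdiff_subset.eventuallyLE
      have q4 := mul_le_mul_of_nonneg_left q3 (by positivity : 0 ≤ (τ ^ (k + 1))⁻¹)
      have q5 : vol.real (U \ Kc) * τ ≤ η / 2 := by
        rw [hKc]
        refine (mul_le_mul_of_nonneg_right hcov τ0.le).trans (le_of_eq ?_)
        field_simp
      linarith
    rw [← aV]
    linarith
  -- the tangent line
  have key : (k + 2 : ℝ) * (2 * a) ^ (k + 1) * (∑ i ∈ Finset.range N, W i) -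
      (k + 1) * (2 * a) ^ (k + 2) * (∑ i ∈ Finset.range N, O i) ≤
        ∑ i ∈ Finset.range N, P i := by
    rw [Finset.mul_sum, Finset.mul_sum, ← Finset.sum_sub_distrib]
    refine Finset.sum_le_sum fun i _ => ?_
    have := (Q i).tan (hχt i) (χ0 i) hn1 (by positivity : 0 ≤ 2 * a) (k + 1)
    rw [hP, hW, hO]
    push_cast at this
    have e : (k : ℝ) + 1 + 1 = k + 2 := by ring
    rw [e] at this
    exact this
  have W1 : 2 * a * V0 - 3 * η ≤ ∑ i ∈ Finset.range N, W i := by linarith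
  have t0 : 0 ≤ (2 * a) ^ (k + 1) := by positivity
  have key2 : (2 * a) ^ (k + 2) * V0 - 3 * (k + 2) * (2 * a) ^ (k + 1) * η ≤
      ∑ i ∈ Finset.range N, P i := by
    have q1 := mul_le_mul_of_nonneg_left W1 (by positivity : 0 ≤ (k + 2 : ℝ) * (2 * a) ^ (k + 1))
    have q2 := mul_le_mul_of_nonneg_left OV (by positivity : 0 ≤ (k + 1 : ℝ) * (2 * a) ^ (k + 2))
    have e1 : (2 * a) ^ (k + 2) = (2 * a) ^ (k + 1) * (2 * a) := pow_succ _ _
    rw [e1] at q2 key ⊢
    nlinarith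
  have key3 : 3 * (k + 2) * (2 * a) ^ (k + 1) * η ≤ 3 * (k + 2) * (2 * R) ^ (k + 1) * η := by
    have := pow_le_pow_left₀ (by positivity : 0 ≤ 2 * a) (by linarith : 2 * a ≤ 2 * R) (k + 1)
    exact mul_le_mul_of_nonneg_right (mul_le_mul_of_nonneg_left this (by positivity)) η0.le
  have key4 := mul_le_mul_of_nonneg_left (key2.trans' (sub_le_sub_left key3 _)) c0.le
  have e5 : c * 2 ^ (k + 2) * (V0 * a ^ (k + 2)) = c * ((2 * a) ^ (k + 2) * V0) := by
    rw [mul_pow]; ring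
  have e6 : η * (1 + 3 * (k + 2) * c * (2 * R) ^ (k + 1)) = ε := by
    rw [hη]; field_simp
  rw [e5]
  linarith

end

end Pool.Agent.Helper32.EV
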