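import Pool.Agent.Helper61A.PW.Square

/-!
Project EV (helper32): the even moments of plane waves.
-/

set_option autoImplicit false
open MeasureTheory Filter Topology

namespace Pool.Agent.Helper32.EV

noncomputable section

lemma prod_cb (k : ℕ) : ∏ i ∈ Finset.range k, (2 * (i : ℝ) + 1) / (2 * i + 2) =
    (Nat.centralBinom k : ℝ) / 4 ^ k := by
  induction k with
  | zero => simp
  | succ k ih =>
    rw [Finset.prod_range_succ, ih]
    have h := Nat.succ_mul_centralBinom_succ k
    have h2 : ((k : ℝ) + 1) * (Nat.centralBinom (k + 1) : ℝ) =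
        2 * (2 * k + 1) * (Nat.centralBinom k : ℝ) := by exact_mod_cast h
    have h3 : (Nat.centralBinom (k + 1) : ℝ) =
        2 * (2 * k + 1) * (Nat.centralBinom k : ℝ) / ((k : ℝ) + 1) := by
      rw [← h2]; field_simp
    rw [h3, pow_succ]
    field_simp
    ring

lemma cos_per (k : ℕ) : Function.Periodic (fun x : ℝ => Real.cos x ^ (2 * k)) Real.pi := by
  intro x
  show Real.cos (x + Real.pi) ^ (2 * k) = Real.cos x ^ (2 * k)
  rw [Real.cos_add_pi, pow_mul, neg_sq, ← pow_mul]

lemma sin_per (k : ℕ) : Function.Periodic (fun x : ℝ => Real.sin x ^ (2 * k)) Real.pi := by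
  intro x
  show Real.sin (x + Real.pi) ^ (2 * k) = Real.sin x ^ (2 * k)
  rw [Real.sin_add_pi, pow_mul, neg_sq, ← pow_mul]

lemma int_cos_pi (k : ℕ) : ∫ x in (0 : ℝ)..Real.pi, Real.cos x ^ (2 * k) =
    Real.pi * ((Nat.centralBinom k : ℝ) / 4 ^ k) := by
  have h1 : ∫ x in (0 : ℝ)..Real.pi, Real.cos x ^ (2 * k) =
      ∫ x in (0 : ℝ)..Real.pi, (fun y => Real.sin y ^ (2 * k)) (x + Real.pi / 2) := by
    refine intervalIntegral.integral_congr fun x _ => ?_
    show Real.cos x ^ (2 * k) = Real.sin (x + Real.pi / 2) ^ (2 * k)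
    rw [Real.sin_add_pi_div_two]
  rw [h1, intervalIntegral.integral_comp_add_right (fun y => Real.sin y ^ (2 * k))]
  have h2 := (sin_per k).intervalIntegral_add_eq (Real.pi / 2) 0
  rw [zero_add] at h2 ⊢
  rw [add_comm Real.pi, h2, integral_sin_pow_even, prod_cb]

lemma int_cos_pow (n k : ℕ) : ∫ x in (0 : ℝ)..1, Real.cos (((n : ℝ) + 1) * Real.pi * x) ^ (2 * k) =
    (Nat.centralBinom k : ℝ) / 4 ^ k := by
  have hp := Real.pi_pos
  have hk : ((n : ℝ) + 1) * Real.pi ≠ 0 := by positivity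
  rw [intervalIntegral.integral_comp_mul_left (fun x => Real.cos x ^ (2 * k)) hk, mul_zero,
    mul_one]
  have h1 := (cos_per k).intervalIntegral_add_zsmul_eq ((n : ℤ) + 1) 0 (fun a b =>
    (Real.continuous_cos.pow (2 * k)).intervalIntegrable a b)
  have e1 : (0 : ℝ) + ((n : ℤ) + 1) • Real.pi = ((n : ℝ) + 1) * Real.pi := by
    rw [zero_add, zsmul_eq_mul]; push_cast; ring
  rw [e1, zero_add, int_cos_pi] at h1
  rw [h1]
  simp only [zsmul_eq_mul, smul_eq_mul]
  push_cast
  field_simp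

end

end Pool.Agent.Helper32.EV
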